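import Pool.Agent.U196.UM.Mass2

set_option autoImplicit false

/-! The size of zeta on the critical line relative to every Dirichlet polynomial: the upper bound and its sharpness. -/

namespace Pool.Agent.U196.UM

open Filter Topology MeasureTheory Complex
open Pool.Agent.Q97.UM Pool.Agent.Q98.UM

theorem continuous_zt : Continuous zt := by
  unfold zt
  refine continuous_iff_continuousAt.mpr fun t => ?_
  have h1 : (1 / 2 + t * I : ℂ) ≠ 1 := by
    intro h
    have := congrArg Complex.re h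
    norm_num at this
  have h2 : ContinuousAt riemannZeta (1 / 2 + t * I : ℂ) := (differentiableAt_riemannZeta h1).continuousAt
  have h3 : ContinuousAt (fun t : ℝ => (1 / 2 + t * I : ℂ)) t := by fun_prop
  exact ContinuousAt.comp (f := fun t : ℝ => (1 / 2 + t * I : ℂ)) h2 h3

theorem four_pow {a b c d : ℝ} (ha : 0 ≤ a) (hb : 0 ≤ b) (hc : 0 ≤ c) (hd : 0 ≤ d) (n : ℕ) :
    (a + b + c + d) ^ (n + 1) ≤ 4 ^ n * (a ^ (n + 1) + b ^ (n + 1) + c ^ (n + 1) + d ^ (n + 1)) := by
  have h := weighted_pow (Finset.univ : Finset (Fin 4)) (fun _ => 1) ![a, b, c, d] (fun _ _ => one_pos)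
    (fun i _ => by fin_cases i <;> simpa) n
  simp only [div_one, one_mul, Fin.sum_univ_four, Finset.sum_const, Finset.card_univ, Fintype.card_fin] at h
  simpa using h

theorem mert : ∃ C₃ : ℝ, 0 ≤ C₃ ∧ ∀ N : ℕ, 3 ≤ N →
    |∑ p ∈ (Finset.Icc 1 N).filter Nat.Prime, (1 : ℝ) / p - Real.log (Real.log N)| ≤ C₃ := by
  obtain ⟨C, hC⟩ := Pool.Agent.Erdos456.Mert.mertens_inv
  exact ⟨C, (abs_nonneg _).trans (hC 3 le_rfl), hC⟩

/-- the Euler product and the prime sum differ by at most `log log T + C` -/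
theorem ep_prc : ∃ C : ℝ, 0 ≤ C ∧ ∀ δ : ℝ, 0 < δ → δ ≤ 1 → ∀ᶠ T : ℝ in atTop, ∀ t : ℝ,
    |EP ⌊T ^ δ⌋₊ t - (dp ⌊T ^ δ⌋₊ (prc ⌊T ^ δ⌋₊) t).re| ≤ Real.log (Real.log T) + C := by
  obtain ⟨C₃, hC₃, h⟩ := mert
  refine ⟨2 * S3 + C₃ / 2, by have := S3_nonneg; positivity, fun δ hδ hδ1 => ?_⟩
  filter_upwards [(tendsto_rpow_atTop hδ).eventually_ge_atTop 4, eventually_ge_atTop 16,
    (Real.tendsto_log_atTop.comp Real.tendsto_log_atTop).eventually_ge_atTop 0] with T h1 h2 h0 t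
  simp only [Function.comp] at h0
  have hX3 : 3 ≤ ⌊T ^ δ⌋₊ := Nat.le_floor (by norm_num; linarith)
  have h3 := EP_prc h hX3 t
  refine h3.trans ?_
  have hX : (⌊T ^ δ⌋₊ : ℝ) ≤ T := (Nat.floor_le (by positivity)).trans (by
    calc T ^ δ ≤ T ^ (1 : ℝ) := Real.rpow_le_rpow_of_exponent_le (by linarith) hδ1
      _ = T := Real.rpow_one T)
  have hX3' : (3:ℝ) ≤ ⌊T ^ δ⌋₊ := by exact_mod_cast hX3
  have h4 : Real.log (Real.log ⌊T ^ δ⌋₊) ≤ Real.log (Real.log T) := by
    have hl : 0 < Real.log (⌊T ^ δ⌋₊ : ℝ) := Real.log_pos (by linarith)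
    exact Real.log_le_log hl (Real.log_le_log (by linarith) hX)
  linarith

/-- `T · N2` and the mean square -/
theorem N2_le {T : ℝ} (hT : 16 ≤ T) {N : ℕ} (hN : (N : ℝ) ≤ T ^ (1 / 4 : ℝ)) (b : ℕ → ℂ) :
    T * N2 N b ≤ 2 * ∫ t in T..(2 * T), ‖dp N b t‖ ^ 2 := by
  have := (Pool.Agent.Q84.UM.t_MVL T hT N hN b).1
  linarith

theorem growth2 (C : ℝ) : ∀ᶠ T : ℝ in atTop,
    Real.log (Real.log T) + C ≤ Real.sqrt (Real.log T / Real.log (Real.log T)) ∧
    Real.log T ^ (1 / 4 : ℝ) ≤ Real.sqrt (Real.log T / Real.log (Real.log T)) ∧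
    1 ≤ Real.log T / Real.log (Real.log T) := by
  have h1 : Tendsto (fun T : ℝ => Real.log T) atTop atTop := Real.tendsto_log_atTop
  have h2 : Tendsto (fun T : ℝ => Real.log (Real.log T)) atTop atTop := h1.comp h1
  have key : ∀ᶠ x : ℝ in atTop, (x + C) ^ 2 * x ≤ Real.exp x ∧ x ≤ Real.exp (x / 2) := by
    have a1 : Tendsto (fun x : ℝ => x ^ 4 * Real.exp (-x)) atTop (𝓝 0) := Real.tendsto_pow_mul_exp_neg_atTop_nhds_zero 4
    have a2 := a1.eventually_lt_const (show (0:ℝ) < 1 by norm_num)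
    filter_upwards [a2, eventually_ge_atTop (|C| + 16)] with x hx hx2
    have hC := neg_abs_le C
    have hC2 := le_abs_self C
    have hx0 : 16 ≤ x := by have := abs_nonneg C; linarith
    have he : x ^ 4 ≤ Real.exp x := by
      have : x ^ 4 * Real.exp (-x) * Real.exp x ≤ 1 * Real.exp x :=
        mul_le_mul_of_nonneg_right hx.le (Real.exp_pos x).le
      rw [mul_assoc, ← Real.exp_add, neg_add_cancel, Real.exp_zero, mul_one, one_mul] at this
      exact this
    constructor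
    · refine le_trans ?_ he
      have h3 : (x + C) ^ 2 ≤ (2 * x) ^ 2 := by
        apply sq_le_sq'
        · linarith
        · linarith
      have h4 : (2 * x) ^ 2 * x ≤ x ^ 4 := by nlinarith [pow_pos (show (0:ℝ) < x by linarith) 3]
      calc (x + C) ^ 2 * x ≤ (2 * x) ^ 2 * x := mul_le_mul_of_nonneg_right h3 (by linarith)
        _ ≤ _ := h4
    · have h5 : Real.exp x = Real.exp (x / 2) * Real.exp (x / 2) := by rw [← Real.exp_add]; ring_nf
      by_contra hcon
      push Not at hcon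
      have h6 : 0 < Real.exp (x / 2) := Real.exp_pos _
      have h7 : Real.exp x < x ^ 2 := by rw [h5]; nlinarith
      have h8 : x ^ 2 ≤ x ^ 4 := pow_le_pow_right₀ (by linarith) (by norm_num)
      linarith
  filter_upwards [h2.eventually key, h1.eventually_ge_atTop 2, h2.eventually_ge_atTop 1,
    h2.eventually_ge_atTop (-C)] with T h3 h4 h5 h6
  set L := Real.log T
  set LL := Real.log L
  have hL0 : 0 < L := by linarith
  have hLL0 : 0 < LL := by linarith
  have hexp : Real.exp LL = L := Real.exp_log hL0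
  have hexp2 : Real.exp (LL / 2) = L ^ (1 / 2 : ℝ) := by
    rw [Real.rpow_def_of_pos hL0]; congr 1; ring
  rw [hexp, hexp2] at h3
  refine ⟨?_, ?_, ?_⟩
  · apply Real.le_sqrt_of_sq_le
    rw [le_div_iff₀ hLL0]
    exact h3.1
  · apply Real.le_sqrt_of_sq_le
    rw [le_div_iff₀ hLL0, ← Real.rpow_natCast, ← Real.rpow_mul hL0.le]
    calc L ^ (1 / 4 * ((2:ℕ):ℝ)) * LL ≤ L ^ (1 / 2 : ℝ) * L ^ (1 / 2 : ℝ) := by
          have : (1 / 4 * ((2:ℕ):ℝ)) = 1 / 2 := by norm_num
          rw [this]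
          exact mul_le_mul_of_nonneg_left h3.2 (by positivity)
      _ = L := by rw [← Real.rpow_add hL0]; norm_num
  · rw [le_div_iff₀ hLL0, one_mul]
    have := Real.log_le_sub_one_of_pos hL0
    linarith

/-- **Upper bound**: all even moments of `log |ζ|` relative to every Dirichlet polynomial. -/
theorem upper (m : ℕ) : ∃ θ C : ℝ, 0 < θ ∧ 0 < C ∧ ∀ᶠ T : ℝ in atTop, ∀ N : ℕ, (N : ℝ) ≤ T ^ θ → ∀ b : ℕ → ℂ,
    IntervalIntegrable (fun t => |Real.log ‖zt t‖| ^ (2 * (m + 1)) * ‖dp N b t‖ ^ 2) volume T (2 * T) ∧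
    ∫ t in T..(2 * T), |Real.log ‖zt t‖| ^ (2 * (m + 1)) * ‖dp N b t‖ ^ 2 ≤
      C * (Real.log T / Real.log (Real.log T)) ^ (m + 1) * ∫ t in T..(2 * T), ‖dp N b t‖ ^ 2 := by
  obtain ⟨θ₁, δ₀, hθ₁, hδ₀, hTHP⟩ := b_THP (2 * (m + 1))
  have hm : (0:ℝ) ≤ m := Nat.cast_nonneg m
  set δ : ℝ := min δ₀ (1 / (16 * (m + 1))) with hδd
  have hδ : 0 < δ := by positivity
  have hδ1 : (m + 1) * δ ≤ 1 / 16 := by
    have : δ ≤ 1 / (16 * (m + 1)) := min_le_right _ _
    calc (m + 1) * δ ≤ (m + 1) * (1 / (16 * (m + 1))) := mul_le_mul_of_nonneg_left this (by positivity)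
      _ = 1 / 16 := by field_simp
  have hδ2 : δ ≤ 1 := by nlinarith
  obtain ⟨C₁, hC₁, hT1⟩ := hTHP δ hδ (min_le_left _ _)
  obtain ⟨C₂, hC₂, hT2⟩ := big m hδ hδ1
  obtain ⟨C₃, hC₃, hEP⟩ := ep_prc
  refine ⟨min θ₁ (1 / 16), 4 ^ (2 * m + 1) * (2 * C₁ + 2 * C₂ + 2), by positivity, by positivity, ?_⟩
  filter_upwards [hT1, hT2, hEP δ hδ hδ2, growth2 C₃, eventually_ge_atTop 16] with T h1 h2 h3 h4 hT16 N hNT b
  obtain ⟨F, G, hFc, hGc, hFG, hG, hF⟩ := h2
  obtain ⟨hr1, hr2, hr3⟩ := h4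
  set R := Real.sqrt (Real.log T / Real.log (Real.log T)) with hR
  set q := Real.log T / Real.log (Real.log T) with hq
  have hR2 : R ^ 2 = q := Real.sq_sqrt (by linarith)
  have hR0 : 0 ≤ R := Real.sqrt_nonneg _
  have hT0 : 0 < T := by linarith
  have hTT : T ≤ 2 * T := by linarith
  set X := ⌊T ^ δ⌋₊ with hX
  have hN1 : (N : ℝ) ≤ T ^ θ₁ := hNT.trans (Real.rpow_le_rpow_of_exponent_le (by linarith) (min_le_left _ _))
  have hN16 : (N : ℝ) ≤ T ^ (1 / 16 : ℝ) := hNT.trans (Real.rpow_le_rpow_of_exponent_le (by linarith) (min_le_right _ _))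
  have hN4 : (N : ℝ) ≤ T ^ (1 / 4 : ℝ) := hN16.trans (Real.rpow_le_rpow_of_exponent_le (by linarith) (by norm_num))
  obtain ⟨hI, hI2⟩ := h1 N hN1 b
  have hBc : Continuous (dp N b) := (Pool.Agent.Q84.UM.t_DPM.2.2 _ _ 0).2
  set B2 : ℝ → ℝ := fun t => ‖dp N b t‖ ^ 2 with hB2
  have hB2c : Continuous B2 := by rw [hB2]; fun_prop
  set e : ℕ := 2 * m + 1 with he
  have hee : 2 * (m + 1) = e + 1 := by rw [he]; ring
  -- the majorant
  set g1 : ℝ → ℝ := fun t => |Real.log ‖zt t‖ - EP X t| ^ (2 * (m + 1)) * B2 t with hg1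
  set g2 : ℝ → ℝ := fun t => ‖F t‖ ^ (2 * (m + 1)) * B2 t with hg2
  have hg1i : IntervalIntegrable g1 volume T (2 * T) := by
    refine hI.mono_set ?_
    rw [Set.uIcc_of_le hTT, Set.uIcc_of_le (by linarith)]
    exact Set.Icc_subset_Icc (by linarith) (by linarith)
  have hg2c : Continuous g2 := by rw [hg2]; fun_prop
  have hpt : ∀ t, |Real.log ‖zt t‖| ^ (2 * (m + 1)) * B2 t ≤
      4 ^ e * (g1 t + R ^ (2 * (m + 1)) * B2 t + g2 t + R ^ (2 * (m + 1)) * B2 t) := by
    intro t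
    have ha : |Real.log ‖zt t‖| ≤ |Real.log ‖zt t‖ - EP X t| + R + ‖F t‖ + R := by
      have b1 := (h3 t).trans hr1
      have b2 : |(dp X (prc X) t).re| ≤ ‖F t‖ + R := by
        rw [hFG t]
        refine (abs_re_le_norm _).trans ((norm_add_le _ _).trans ?_)
        have := (hG t).trans hr2
        linarith
      have b3 : Real.log ‖zt t‖ = (Real.log ‖zt t‖ - EP X t) + (EP X t - (dp X (prc X) t).re) + (dp X (prc X) t).re := by ring
      rw [b3]
      refine (abs_add_le _ _).trans ?_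
      have b4 := abs_add_le (Real.log ‖zt t‖ - EP X t) (EP X t - (dp X (prc X) t).re)
      have b5 : |Real.log ‖zt t‖ - EP X t + (EP X t - (dp X (prc X) t).re) + (dp X (prc X) t).re - EP X t| =
        |Real.log ‖zt t‖ - EP X t| := by congr 1; ring
      linarith
    have hb := pow_le_pow_left₀ (abs_nonneg _) ha (e + 1)
    have hc := four_pow (abs_nonneg (Real.log ‖zt t‖ - EP X t)) hR0 (norm_nonneg (F t)) hR0 e
    rw [hee]
    calc |Real.log ‖zt t‖| ^ (e + 1) * B2 t ≤ (4 ^ e * (|Real.log ‖zt t‖ - EP X t| ^ (e + 1) + R ^ (e + 1) +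
          ‖F t‖ ^ (e + 1) + R ^ (e + 1))) * B2 t := mul_le_mul_of_nonneg_right (hb.trans hc) (by positivity)
      _ = _ := by rw [hg1, hg2]; simp only [hee]; ring
  have hmaj : IntervalIntegrable (fun t => 4 ^ e * (g1 t + R ^ (2 * (m + 1)) * B2 t + g2 t + R ^ (2 * (m + 1)) * B2 t))
      volume T (2 * T) := by
    refine IntervalIntegrable.const_mul ?_ _
    refine ((hg1i.add ?_).add (hg2c.intervalIntegrable _ _)).add ?_
    · exact (continuous_const.mul hB2c).intervalIntegrable _ _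
    · exact (continuous_const.mul hB2c).intervalIntegrable _ _
  have hmeas : Measurable fun t => |Real.log ‖zt t‖| ^ (2 * (m + 1)) * B2 t := by
    have h := continuous_zt.measurable
    have h' : Measurable fun t => |Real.log ‖zt t‖| ^ (2 * (m + 1)) := by fun_prop
    exact h'.mul hB2c.measurable
  have hint : IntervalIntegrable (fun t => |Real.log ‖zt t‖| ^ (2 * (m + 1)) * B2 t) volume T (2 * T) := by
    refine hmaj.mono_fun hmeas.aestronglyMeasurable (Filter.Eventually.of_forall fun t => ?_)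
    have h0 : 0 ≤ |Real.log ‖zt t‖| ^ (2 * (m + 1)) * B2 t := by rw [hB2]; positivity
    beta_reduce
    rw [Real.norm_of_nonneg h0, Real.norm_of_nonneg (h0.trans (hpt t))]
    exact hpt t
  refine ⟨hint, ?_⟩
  set S : ℝ := ∫ t in T..(2 * T), B2 t with hS
  have hS0 : 0 ≤ S := intervalIntegral.integral_nonneg hTT fun t _ => by rw [hB2]; positivity
  have hTN : T * N2 N b ≤ 2 * S := N2_le hT16 hN4 b
  have hq1 : 1 ≤ q ^ (m + 1) := one_le_pow₀ hr3
  have i1 : ∫ t in T..(2 * T), g1 t ≤ 2 * C₁ * q ^ (m + 1) * S := by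
    have j1 : ∫ t in T..(2 * T), g1 t ≤ ∫ t in (T / 2)..(4 * T), g1 t := by
      refine intervalIntegral.integral_mono_interval (by linarith) hTT (by linarith) ?_ hI
      exact Filter.Eventually.of_forall fun t => by rw [hg1, hB2]; simp only [Pi.zero_apply]; positivity
    have j2 : C₁ * T * N2 N b ≤ C₁ * (2 * S) := by
      rw [mul_assoc]; exact mul_le_mul_of_nonneg_left hTN hC₁
    have j3 : C₁ * (2 * S) ≤ 2 * C₁ * q ^ (m + 1) * S := by
      have : 0 ≤ 2 * C₁ * S := by positivity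
      nlinarith
    exact j1.trans (hI2.trans (j2.trans j3))
  have i2 : ∫ t in T..(2 * T), g2 t ≤ 2 * C₂ * q ^ (m + 1) * S := by
    rcases Nat.eq_zero_or_pos N with hN0 | hN0
    · have : ∀ t, g2 t = 0 := by
        intro t
        rw [hg2, hB2]; simp only; rw [hN0]; unfold dp; simp
      simp only [this, intervalIntegral.integral_zero]
      positivity
    · have j1 := hF N hN0 hN16 (tr N b) (tr_supp N b)
      rw [N2_tr] at j1
      have j2 : ∫ t in T..(2 * T), g2 t = ∫ t in T..(2 * T), ‖F t‖ ^ (2 * (m + 1)) * ‖dp N (tr N b) t‖ ^ 2 := by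
        congr 1; funext t; rw [dp_tr]
      rw [j2]
      refine j1.trans ?_
      have : C₂ * T * q ^ (m + 1) * N2 N b = C₂ * q ^ (m + 1) * (T * N2 N b) := by ring
      rw [this]
      calc C₂ * q ^ (m + 1) * (T * N2 N b) ≤ C₂ * q ^ (m + 1) * (2 * S) :=
            mul_le_mul_of_nonneg_left hTN (by positivity)
        _ = _ := by ring
  have hRq : R ^ (2 * (m + 1)) = q ^ (m + 1) := by rw [pow_mul, hR2]
  calc ∫ t in T..(2 * T), |Real.log ‖zt t‖| ^ (2 * (m + 1)) * B2 t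
      ≤ ∫ t in T..(2 * T), 4 ^ e * (g1 t + R ^ (2 * (m + 1)) * B2 t + g2 t + R ^ (2 * (m + 1)) * B2 t) :=
        intervalIntegral.integral_mono_on hTT hint hmaj fun t _ => hpt t
    _ = 4 ^ e * ((∫ t in T..(2 * T), g1 t) + R ^ (2 * (m + 1)) * S + (∫ t in T..(2 * T), g2 t) + R ^ (2 * (m + 1)) * S) := by
        rw [intervalIntegral.integral_const_mul, intervalIntegral.integral_add, intervalIntegral.integral_add,
          intervalIntegral.integral_add, intervalIntegral.integral_const_mul]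
        · exact hg1i
        · exact (continuous_const.mul hB2c).intervalIntegrable _ _
        · exact hg1i.add ((continuous_const.mul hB2c).intervalIntegrable _ _)
        · exact hg2c.intervalIntegrable _ _
        · exact (hg1i.add ((continuous_const.mul hB2c).intervalIntegrable _ _)).add (hg2c.intervalIntegrable _ _)
        · exact (continuous_const.mul hB2c).intervalIntegrable _ _
    _ ≤ 4 ^ e * (2 * C₁ * q ^ (m + 1) * S + q ^ (m + 1) * S + 2 * C₂ * q ^ (m + 1) * S + q ^ (m + 1) * S) := by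
        rw [hRq]
        refine mul_le_mul_of_nonneg_left ?_ (by positivity)
        linarith
    _ = _ := by ring

end Pool.Agent.U196.UM
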