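import Pool.Agent.Q97.UM.Base8
import Pool.Agent.Q149.UM.MZ

set_option autoImplicit false

/-! Lower bounds for products of shifted values of zeta relative to every Dirichlet polynomial: preparations. -/

namespace Pool.Agent.U196.UM

open Filter Topology MeasureTheory Complex
open Pool.Agent.Q97.UM

theorem norm_ap_sq {n : ℕ} (k α : Fin n → ℝ) {p : ℕ} (hp : p.Prime) :
    ‖ap k α p‖ ^ 2 = ∑ i, ∑ j, k i * k j * Real.cos ((α i - α j) * Real.log p) := by
  have hp0 : (p : ℂ) ≠ 0 := by exact_mod_cast hp.ne_zero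
  have hpr : (0:ℝ) < p := by exact_mod_cast hp.pos
  have hc : ∀ x : ℝ, (p : ℂ) ^ (-(x * I)) = Complex.exp (-((x * Real.log p : ℝ) * I)) := by
    intro x
    rw [Complex.cpow_def_of_ne_zero hp0, ← Complex.natCast_log]
    congr 1
    push_cast
    ring
  have h1 : ((‖ap k α p‖ ^ 2 : ℝ) : ℂ) = (starRingEnd ℂ) (ap k α p) * ap k α p := by
    rw [Complex.conj_mul']
    push_cast
    rfl
  have h2 : ‖ap k α p‖ ^ 2 = ((starRingEnd ℂ) (ap k α p) * ap k α p).re := by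
    rw [← h1, Complex.ofReal_re]
  rw [h2]
  unfold ap
  rw [map_sum, Finset.sum_mul_sum, Complex.re_sum]
  refine Finset.sum_congr rfl fun i _ => ?_
  rw [Complex.re_sum]
  refine Finset.sum_congr rfl fun j _ => ?_
  rw [map_mul, Complex.conj_ofReal, hc, hc, ← Complex.exp_conj]
  have h3 : (starRingEnd ℂ) (-((α i * Real.log p : ℝ) * I)) = ((α i * Real.log p : ℝ) : ℂ) * I := by
    rw [map_neg, map_mul, Complex.conj_ofReal, Complex.conj_I]
    ring
  rw [h3]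
  have h4 : (k i : ℂ) * Complex.exp (((α i * Real.log p : ℝ) : ℂ) * I) *
      ((k j : ℂ) * Complex.exp (-((α j * Real.log p : ℝ) * I))) =
      ((k i * k j : ℝ) : ℂ) * Complex.exp (((((α i - α j) * Real.log p : ℝ)) : ℂ) * I) := by
    have : Complex.exp (((((α i - α j) * Real.log p : ℝ)) : ℂ) * I) =
        Complex.exp (((α i * Real.log p : ℝ) : ℂ) * I) * Complex.exp (-((α j * Real.log p : ℝ) * I)) := by
      rw [← Complex.exp_add]
      congr 1
      push_cast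
      ring
    rw [this]
    push_cast
    ring
  rw [h4, Complex.re_ofReal_mul, Complex.exp_ofReal_mul_I_re]

/-- the order of magnitude predicted for the mean of the product of shifted values -/
noncomputable def pred (T : ℝ) {n : ℕ} (k α : Fin n → ℝ) : ℝ :=
  ∏ i, ∏ j, ‖riemannZeta (1 + 1 / Real.log T + (α i - α j) * I)‖ ^ (k i * k j)

theorem zeta_ne {L u : ℝ} (hL : 0 < L) : riemannZeta (1 + 1 / L + u * I) ≠ 0 := by
  apply riemannZeta_ne_zero_of_one_le_re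
  have : (1 + 1 / (L:ℂ) + u * I).re = 1 + 1 / L := by
    have : (1 / (L:ℂ)) = ((1 / L : ℝ) : ℂ) := by push_cast; rfl
    rw [this]
    simp
  rw [this]
  have : 0 < 1 / L := by positivity
  linarith

theorem pred_eq {T : ℝ} (hT : 1 < T) {n : ℕ} (k α : Fin n → ℝ) :
    pred T k α = Real.exp (∑ i, ∑ j, k i * k j * Real.log ‖riemannZeta (1 + 1 / Real.log T + ((α i - α j : ℝ) : ℂ) * I)‖) := by
  have hL : 0 < Real.log T := Real.log_pos hT
  unfold pred
  rw [Real.exp_sum]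
  refine Finset.prod_congr rfl fun i _ => ?_
  rw [Real.exp_sum]
  refine Finset.prod_congr rfl fun j _ => ?_
  have h := norm_pos_iff.2 (zeta_ne (u := α i - α j) hL)
  push_cast at h ⊢
  rw [Real.rpow_def_of_pos h, mul_comm]

theorem prime_sum_lower {δ : ℝ} (hδ : 0 < δ) (hδ1 : δ ≤ 1) {A : ℝ} (hA : 0 ≤ A) : ∃ C : ℝ, ∀ᶠ T : ℝ in atTop,
    ∀ (n : ℕ) (k α : Fin n → ℝ), ∑ j, |k j| ≤ A →
      Real.exp (-C) * pred T k α ≤
        Real.exp (∑ p ∈ (Finset.Icc 1 ⌊T ^ δ⌋₊).filter Nat.Prime, ‖ap k α p‖ ^ 2 / p) := by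
  obtain ⟨C, hC⟩ := Pool.Agent.Q149.UM.t_MZ δ hδ hδ1
  refine ⟨A ^ 2 * |C|, ?_⟩
  filter_upwards [hC, eventually_gt_atTop 1] with T h hT n k α hk
  rw [pred_eq hT, ← Real.exp_add]
  apply Real.exp_le_exp.mpr
  have h1 : ∑ p ∈ (Finset.Icc 1 ⌊T ^ δ⌋₊).filter Nat.Prime, ‖ap k α p‖ ^ 2 / p =
      ∑ i, ∑ j, k i * k j * ∑ p ∈ (Finset.Icc 1 ⌊T ^ δ⌋₊).filter Nat.Prime, Real.cos ((α i - α j) * Real.log p) / p := by
    have h2 : ∀ p ∈ (Finset.Icc 1 ⌊T ^ δ⌋₊).filter Nat.Prime, ‖ap k α p‖ ^ 2 / p =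
        ∑ i, ∑ j, k i * k j * (Real.cos ((α i - α j) * Real.log p) / p) := by
      intro p hp
      rw [norm_ap_sq k α (Finset.mem_filter.mp hp).2, Finset.sum_div]
      refine Finset.sum_congr rfl fun i _ => ?_
      rw [Finset.sum_div]
      refine Finset.sum_congr rfl fun j _ => ?_
      ring
    rw [Finset.sum_congr rfl h2, Finset.sum_comm]
    refine Finset.sum_congr rfl fun i _ => ?_
    rw [Finset.sum_comm]
    refine Finset.sum_congr rfl fun j _ => ?_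
    rw [Finset.mul_sum]
  rw [h1]
  have h3 : ∀ i j, k i * k j * Real.log ‖riemannZeta (1 + 1 / Real.log T + ((α i - α j : ℝ) : ℂ) * I)‖ - |k i| * |k j| * |C| ≤
      k i * k j * ∑ p ∈ (Finset.Icc 1 ⌊T ^ δ⌋₊).filter Nat.Prime, Real.cos ((α i - α j) * Real.log p) / p := by
    intro i j
    have h4 := h (α i - α j)
    set x := ∑ p ∈ (Finset.Icc 1 ⌊T ^ δ⌋₊).filter Nat.Prime, Real.cos ((α i - α j) * Real.log p) / p
    set y := Real.log ‖riemannZeta (1 + 1 / Real.log T + ((α i - α j : ℝ) : ℂ) * I)‖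
    have h5 : |k i * k j * (x - y)| ≤ |k i| * |k j| * |C| := by
      rw [abs_mul, abs_mul]
      exact mul_le_mul_of_nonneg_left (h4.trans (le_abs_self C)) (by positivity)
    have h6 := (abs_le.1 h5).1
    nlinarith
  have h7 : ∑ i, ∑ j, (k i * k j * Real.log ‖riemannZeta (1 + 1 / Real.log T + ((α i - α j : ℝ) : ℂ) * I)‖ -
      |k i| * |k j| * |C|) ≤ ∑ i, ∑ j, k i * k j *
        ∑ p ∈ (Finset.Icc 1 ⌊T ^ δ⌋₊).filter Nat.Prime, Real.cos ((α i - α j) * Real.log p) / p :=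
    Finset.sum_le_sum fun i _ => Finset.sum_le_sum fun j _ => h3 i j
  have h8 : ∑ i, ∑ j, (k i * k j * Real.log ‖riemannZeta (1 + 1 / Real.log T + ((α i - α j : ℝ) : ℂ) * I)‖ -
      |k i| * |k j| * |C|) = (∑ i, ∑ j, k i * k j * Real.log ‖riemannZeta (1 + 1 / Real.log T + ((α i - α j : ℝ) : ℂ) * I)‖) -
      (∑ i, |k i|) * (∑ j, |k j|) * |C| := by
    simp_rw [Finset.sum_sub_distrib]
    congr 1
    rw [Finset.sum_mul_sum, Finset.sum_mul]
    refine Finset.sum_congr rfl fun i _ => ?_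
    rw [Finset.sum_mul]
  have h9 : (∑ i, |k i|) * (∑ j, |k j|) ≤ A ^ 2 := by
    have : 0 ≤ ∑ i, |k i| := Finset.sum_nonneg fun i _ => abs_nonneg _
    nlinarith
  have h10 : (∑ i, |k i|) * (∑ j, |k j|) * |C| ≤ A ^ 2 * |C| := mul_le_mul_of_nonneg_right h9 (abs_nonneg _)
  rw [h8] at h7
  linarith

/-- **Lower bound** relative to every Dirichlet polynomial. -/
theorem lower {A : ℝ} (hA : 1 ≤ A) : ∃ θ c : ℝ, 0 < θ ∧ 0 < c ∧ ∀ᶠ T : ℝ in atTop, ∀ (n : ℕ) (k α : Fin n → ℝ),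
    ∑ j, |k j| ≤ A → (∀ j, |α j| ≤ T / 2) → ∃ (M : ℕ) (e : ℕ → ℂ), (M : ℝ) ≤ T ^ (1 / 8 : ℝ) ∧
      c * (T * pred T k α) ≤ ∫ t in T..(2 * T), ‖dp M e t‖ ^ 2 ∧
      ∀ N : ℕ, (N : ℝ) ≤ T ^ θ → ∀ b : ℕ → ℂ,
        ENNReal.ofReal (c * ∫ t in T..(2 * T), ‖dp M e t * dp N b t‖ ^ 2) ≤
          ∫⁻ t in Set.Icc T (2 * T), ENNReal.ofReal ((∏ j, ‖zt (t + α j)‖ ^ (2 * k j)) * ‖dp N b t‖ ^ 2) := by
  obtain ⟨δ, θ, c, hδ, hδ1, hθ, hc, h⟩ := b_LBM A hA
  obtain ⟨C, hC⟩ := prime_sum_lower hδ (by linarith) (show (0:ℝ) ≤ A by linarith)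
  refine ⟨min θ (1 / 8), min (c / 2) (c / 2 * Real.exp (-C)), by positivity, by positivity, ?_⟩
  filter_upwards [h, hC, eventually_ge_atTop 16] with T h1 h2 hT16 n k α hk hα
  obtain ⟨M, e, hM, he, hlow, h3⟩ := h1 n k α hk hα
  have hT0 : 0 < T := by linarith
  have hM4 : (M : ℝ) ≤ T ^ (1 / 4 : ℝ) := hM.trans (Real.rpow_le_rpow_of_exponent_le (by linarith) (by norm_num))
  have hpred : 0 ≤ pred T k α := Finset.prod_nonneg fun i _ => Finset.prod_nonneg fun j _ => by positivity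
  refine ⟨M, e, hM, ?_, ?_⟩
  · have h4 := (Pool.Agent.Q84.UM.t_MVL T hT16 M hM4 e).1
    have h5 := h2 n k α hk
    calc min (c / 2) (c / 2 * Real.exp (-C)) * (T * pred T k α) ≤ c / 2 * Real.exp (-C) * (T * pred T k α) :=
          mul_le_mul_of_nonneg_right (min_le_right _ _) (by positivity)
      _ = T / 2 * (c * (Real.exp (-C) * pred T k α)) := by ring
      _ ≤ T / 2 * N2 M e := by
          refine mul_le_mul_of_nonneg_left ?_ (by linarith)
          exact (mul_le_mul_of_nonneg_left h5 hc.le).trans hlow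
      _ ≤ _ := h4
  · intro N hN b
    have hN1 : (N : ℝ) ≤ T ^ θ := hN.trans (Real.rpow_le_rpow_of_exponent_le (by linarith) (min_le_left _ _))
    have hN8 : (N : ℝ) ≤ T ^ (1 / 8 : ℝ) := hN.trans (Real.rpow_le_rpow_of_exponent_le (by linarith) (min_le_right _ _))
    -- truncation of the coefficients
    set b' : ℕ → ℂ := fun n => if 1 ≤ n ∧ n ≤ N then b n else 0 with hb'
    have hb's : ∀ m, b' m ≠ 0 → 1 ≤ m ∧ m ≤ N := by
      intro m hm
      by_contra hcon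
      apply hm
      rw [hb']
      simp only
      rw [if_neg hcon]
    have hdp : ∀ t, dp N b' t = dp N b t := by
      intro t
      unfold dp
      refine Finset.sum_congr rfl fun m hm => ?_
      rw [hb']
      simp only
      rw [if_pos (Finset.mem_Icc.mp hm)]
    have h4 := h3 N hN1 b' hb's
    have h5 : ∀ t, dp M e t * dp N b t = dp (M * N) (cv e b') t := by
      intro t
      rw [← hdp t]
      exact Pool.Agent.Q84.UM.t_DPM.1 M N e b' t (Pool.Agent.Q98.UM.supp_zero he) (Pool.Agent.Q98.UM.supp_zero hb's)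
    have hMN : ((M * N : ℕ) : ℝ) ≤ T ^ (1 / 4 : ℝ) := by
      push_cast
      calc (M : ℝ) * N ≤ T ^ (1 / 8 : ℝ) * T ^ (1 / 8 : ℝ) := mul_le_mul hM hN8 (by positivity) (by positivity)
        _ = T ^ (1 / 4 : ℝ) := by rw [← Real.rpow_add hT0]; norm_num
    have h6 := (Pool.Agent.Q84.UM.t_MVL T hT16 (M * N) hMN (cv e b')).2
    simp_rw [h5]
    simp_rw [hdp] at h4
    refine le_trans (ENNReal.ofReal_le_ofReal ?_) h4
    have h7 : 0 ≤ ∫ t in T..(2 * T), ‖dp (M * N) (cv e b') t‖ ^ 2 :=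
      intervalIntegral.integral_nonneg (by linarith) fun t _ => by positivity
    calc min (c / 2) (c / 2 * Real.exp (-C)) * ∫ t in T..(2 * T), ‖dp (M * N) (cv e b') t‖ ^ 2
        ≤ c / 2 * ∫ t in T..(2 * T), ‖dp (M * N) (cv e b') t‖ ^ 2 := mul_le_mul_of_nonneg_right (min_le_left _ _) h7
      _ ≤ c / 2 * (2 * T * N2 (M * N) (cv e b')) := mul_le_mul_of_nonneg_left h6 (by positivity)
      _ = c * T * N2 (M * N) (cv e b') := by ring

end Pool.Agent.U196.UM
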