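import Pool.Agent.Q97.UM.Base10
import Pool.Agent.U196.UM.Shift

set_option autoImplicit false

/-! The exact order of small moments relative to every Dirichlet polynomial: preparations. -/

namespace Pool.Agent.U196.UM

open Filter Topology MeasureTheory Complex
open Pool.Agent.Q97.UM

theorem pred_nonneg (T : ℝ) {n : ℕ} (k α : Fin n → ℝ) : 0 ≤ pred T k α :=
  Finset.prod_nonneg fun i _ => Finset.prod_nonneg fun j _ => by positivity

theorem prime_sum_upper {δ : ℝ} (hδ : 0 < δ) (hδ1 : δ ≤ 1) {A : ℝ} (hA : 0 ≤ A) : ∃ C : ℝ, ∀ᶠ T : ℝ in atTop,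
    ∀ (n : ℕ) (k α : Fin n → ℝ), ∑ j, |k j| ≤ A →
        Real.exp (∑ p ∈ (Finset.Icc 1 ⌊T ^ δ⌋₊).filter Nat.Prime, ‖ap k α p‖ ^ 2 / p) ≤ Real.exp C * pred T k α := by
  obtain ⟨C, hC⟩ := Pool.Agent.Q149.UM.t_MZ δ hδ hδ1
  refine ⟨A ^ 2 * |C|, ?_⟩
  filter_upwards [hC, eventually_gt_atTop 1] with T h hT n k α hk
  rw [pred_eq hT, ← Real.exp_add]
  apply Real.exp_le_exp.mpr
  have h1 : ∑ p ∈ (Finset.Icc 1 ⌊T ^ δ⌋₊).filter Nat.Prime, ‖ap k α p‖ ^ 2 / p =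
      ∑ i, ∑ j, k i * k j * ∑ p ∈ (Finset.Icc 1 ⌊T ^ δ⌋₊).filter Nat.Prime, Real.cos ((α i - α j) * Real.log p) / p := by
    have h2 : ∀ p ∈ (Finset.Icc 1 ⌊T ^ δ⌋₊).filter Nat.Prime, ‖ap k α p‖ ^ 2 / p =
        ∑ i, ∑ j, k i * k j * (Real.cos ((α i - α j) * Real.log p) / p) := by
      intro p hp
      rw [norm_ap_sq k α (Finset.mem_filter.mp hp).2, Finset.sum_div]
      refine Finset.sum_congr rfl fun i _ => ?_
      rw [Finset.sum_div]
      refine Finset.sum_congr rfl fun j _ => ?_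
      ring
    rw [Finset.sum_congr rfl h2, Finset.sum_comm]
    refine Finset.sum_congr rfl fun i _ => ?_
    rw [Finset.sum_comm]
    refine Finset.sum_congr rfl fun j _ => ?_
    rw [Finset.mul_sum]
  rw [h1]
  have h3 : ∀ i j, k i * k j * ∑ p ∈ (Finset.Icc 1 ⌊T ^ δ⌋₊).filter Nat.Prime, Real.cos ((α i - α j) * Real.log p) / p ≤
      k i * k j * Real.log ‖riemannZeta (1 + 1 / Real.log T + ((α i - α j : ℝ) : ℂ) * I)‖ + |k i| * |k j| * |C| := by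
    intro i j
    have h4 := h (α i - α j)
    set x := ∑ p ∈ (Finset.Icc 1 ⌊T ^ δ⌋₊).filter Nat.Prime, Real.cos ((α i - α j) * Real.log p) / p
    set y := Real.log ‖riemannZeta (1 + 1 / Real.log T + ((α i - α j : ℝ) : ℂ) * I)‖
    have h5 : |k i * k j * (x - y)| ≤ |k i| * |k j| * |C| := by
      rw [abs_mul, abs_mul]
      exact mul_le_mul_of_nonneg_left (h4.trans (le_abs_self C)) (by positivity)
    have h6 := (abs_le.1 h5).2
    nlinarith
  have h7 : ∑ i, ∑ j, k i * k j *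
        ∑ p ∈ (Finset.Icc 1 ⌊T ^ δ⌋₊).filter Nat.Prime, Real.cos ((α i - α j) * Real.log p) / p ≤
      ∑ i, ∑ j, (k i * k j * Real.log ‖riemannZeta (1 + 1 / Real.log T + ((α i - α j : ℝ) : ℂ) * I)‖ +
      |k i| * |k j| * |C|) :=
    Finset.sum_le_sum fun i _ => Finset.sum_le_sum fun j _ => h3 i j
  have h8 : ∑ i, ∑ j, (k i * k j * Real.log ‖riemannZeta (1 + 1 / Real.log T + ((α i - α j : ℝ) : ℂ) * I)‖ +
      |k i| * |k j| * |C|) = (∑ i, ∑ j, k i * k j * Real.log ‖riemannZeta (1 + 1 / Real.log T + ((α i - α j : ℝ) : ℂ) * I)‖) +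
      (∑ i, |k i|) * (∑ j, |k j|) * |C| := by
    simp_rw [Finset.sum_add_distrib]
    congr 1
    rw [Finset.sum_mul_sum, Finset.sum_mul]
    refine Finset.sum_congr rfl fun i _ => ?_
    rw [Finset.sum_mul]
  have h9 : (∑ i, |k i|) * (∑ j, |k j|) ≤ A ^ 2 := by
    have : 0 ≤ ∑ i, |k i| := Finset.sum_nonneg fun i _ => abs_nonneg _
    nlinarith
  have h10 : (∑ i, |k i|) * (∑ j, |k j|) * |C| ≤ A ^ 2 * |C| := mul_le_mul_of_nonneg_right h9 (abs_nonneg _)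
  rw [h8] at h7
  linarith

/-- **The exact order relative to every Dirichlet polynomial.** -/
theorem exact (n : ℕ) : ∃ θ c C : ℝ, 0 < θ ∧ 0 < c ∧ 0 < C ∧ ∀ᶠ T : ℝ in atTop, ∀ k α : Fin n → ℝ,
    (∀ j, 0 ≤ k j) → ∑ j, k j ≤ 1 → (∀ j, |α j| ≤ T / 2) → ∃ (M : ℕ) (e : ℕ → ℂ), (M : ℝ) ≤ T ^ (1 / 8 : ℝ) ∧
      c * (T * pred T k α) ≤ ∫ t in T..(2 * T), ‖dp M e t‖ ^ 2 ∧
      ∫ t in T..(2 * T), ‖dp M e t‖ ^ 2 ≤ C * (T * pred T k α) ∧
      ∀ N : ℕ, (N : ℝ) ≤ T ^ θ → ∀ b : ℕ → ℂ,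
        ENNReal.ofReal (c * ∫ t in T..(2 * T), ‖dp M e t * dp N b t‖ ^ 2) ≤
          (∫⁻ t in Set.Icc T (2 * T), ENNReal.ofReal ((∏ j, ‖zt (t + α j)‖ ^ (2 * k j)) * ‖dp N b t‖ ^ 2)) ∧
        ∫ t in T..(2 * T), (∏ j, ‖zt (t + α j)‖ ^ (2 * k j)) * ‖dp N b t‖ ^ 2 ≤
          C * ∫ t in T..(2 * T), ‖dp M e t * dp N b t‖ ^ 2 := by
  obtain ⟨κ₁, hκ₁, hU⟩ := b_UBM n
  obtain ⟨κ₂, hκ₂, hE⟩ := b_EK9 1 le_rfl
  obtain ⟨κ₃, hκ₃, c₃, C₃, hc₃, hC₃, hN⟩ := b_EN2 1 le_rfl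
  set κ := max κ₁ (max κ₂ κ₃) with hκ
  have hκ4 : 4 ≤ κ := hκ₁.trans (le_max_left _ _)
  obtain ⟨δ₁, hδ₁, hU1⟩ := hU κ (le_max_left _ _)
  obtain ⟨δ₂, hδ₂, hL⟩ := b_LBK 1 (13 / 10 * κ) le_rfl (by linarith)
  set δ := min δ₁ (min δ₂ (1 / (208 * κ))) with hδd
  have hδ : 0 < δ := by positivity
  have hδκ : 208 * κ * δ ≤ 1 := by
    have : δ ≤ 1 / (208 * κ) := (min_le_right _ _).trans (min_le_right _ _)
    rw [le_div_iff₀ (by positivity)] at this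
    linarith
  have hδ1 : δ ≤ 1 := by nlinarith
  obtain ⟨θ₁, C₁, hθ₁, hC₁, hU2⟩ := hU1 δ hδ (min_le_left _ _)
  obtain ⟨C₂, c₂, hC₂, hc₂, hE1⟩ := hE κ δ ((le_max_left _ _).trans (le_max_right _ _)) hδ
  obtain ⟨θ₂, c', hθ₂, hc', hL1⟩ := hL δ hδ ((min_le_right _ _).trans (min_le_left _ _)) C₂ c₂ hC₂ hc₂
  obtain ⟨Cl, hCl⟩ := prime_sum_lower hδ hδ1 (show (0:ℝ) ≤ 1 by norm_num)
  obtain ⟨Cu, hCu⟩ := prime_sum_upper hδ hδ1 (show (0:ℝ) ≤ 1 by norm_num)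
  refine ⟨min (min θ₁ θ₂) (1 / 8), min (c' / 2) (c₃ / 2 * Real.exp (-Cl)), 2 * C₁ + 2 * C₃ * Real.exp Cu + 1, by positivity,
    by positivity, by positivity, ?_⟩
  have eD : ∀ᶠ T : ℝ in atTop, 1 ≤ δ * Real.log T := by
    filter_upwards [Real.tendsto_log_atTop.eventually_ge_atTop (1 / δ)] with T hT
    rw [div_le_iff₀ hδ] at hT
    linarith
  filter_upwards [hU2, hE1, hL1, hCl, hCu, eD, eventually_ge_atTop 16] with T g1 g2 g3 g4 g5 g6 hT16 k α hk0 hk1 hα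
  have hT0 : 0 < T := by linarith
  have hkabs : ∑ j, |k j| ≤ 1 := by
    rw [Finset.sum_congr rfl fun j _ => abs_of_nonneg (hk0 j)]
    exact hk1
  have ha : ∀ m, ‖ap k α m‖ ≤ 1 := fun m => Pool.Agent.Q98.UM.norm_ap_le k α hkabs m
  have ha2 : ∀ m, ‖ap k (fun j => 2 * α j) m‖ ≤ 1 := fun m => Pool.Agent.Q98.UM.norm_ap_le k _ hkabs m
  obtain ⟨J, M₀, q, w, hEK⟩ := g2 (ap k α) (ap k fun j => 2 * α j) ha ha2
  set D := δ * Real.log T with hD
  set M := M9 D κ with hM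
  set e := ebk D κ (ap k α) (ap k fun j => 2 * α j) 0 (JB D) with he
  have hexpD : Real.exp D = T ^ δ := by rw [Real.rpow_def_of_pos hT0, mul_comm, hD, mul_comm]
  have hM8 : (M : ℝ) ≤ T ^ (1 / 8 : ℝ) := by
    refine hEK.len.trans (Real.rpow_le_rpow_of_exponent_le (by linarith) ?_)
    nlinarith
  have hM4 : (M : ℝ) ≤ T ^ (1 / 4 : ℝ) := hM8.trans (Real.rpow_le_rpow_of_exponent_le (by linarith) (by norm_num))
  have hmv := Pool.Agent.Q84.UM.t_MVL T hT16 M hM4 e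
  have hN2 := hN κ D (ap k α) (ap k fun j => 2 * α j) ((le_max_right _ _).trans (le_max_right _ _)) g6 ha ha2
  rw [hexpD] at hN2
  have hpred := pred_nonneg T k α
  have l1 := g4 n k α hkabs
  have u1 := g5 n k α hkabs
  refine ⟨M, e, hM8, ?_, ?_, ?_⟩
  · calc min (c' / 2) (c₃ / 2 * Real.exp (-Cl)) * (T * pred T k α) ≤ c₃ / 2 * Real.exp (-Cl) * (T * pred T k α) :=
          mul_le_mul_of_nonneg_right (min_le_right _ _) (by positivity)
      _ = T / 2 * (c₃ * (Real.exp (-Cl) * pred T k α)) := by ring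
      _ ≤ T / 2 * N2 M e := by
          refine mul_le_mul_of_nonneg_left ?_ (by linarith)
          exact (mul_le_mul_of_nonneg_left l1 hc₃.le).trans hN2.1
      _ ≤ _ := hmv.1
  · calc ∫ t in T..(2 * T), ‖dp M e t‖ ^ 2 ≤ 2 * T * N2 M e := hmv.2
      _ ≤ 2 * T * (C₃ * (Real.exp Cu * pred T k α)) := by
          refine mul_le_mul_of_nonneg_left ?_ (by linarith)
          exact hN2.2.trans (mul_le_mul_of_nonneg_left u1 hC₃)
      _ = 2 * C₃ * Real.exp Cu * (T * pred T k α) := by ring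
      _ ≤ _ := by
          refine mul_le_mul_of_nonneg_right ?_ (by positivity)
          linarith
  · intro N hNT b
    have hN1 : (N : ℝ) ≤ T ^ θ₁ := hNT.trans (Real.rpow_le_rpow_of_exponent_le (by linarith)
      ((min_le_left _ _).trans (min_le_left _ _)))
    have hN2' : (N : ℝ) ≤ T ^ θ₂ := hNT.trans (Real.rpow_le_rpow_of_exponent_le (by linarith)
      ((min_le_left _ _).trans (min_le_right _ _)))
    have hN8 : (N : ℝ) ≤ T ^ (1 / 8 : ℝ) := hNT.trans (Real.rpow_le_rpow_of_exponent_le (by linarith) (min_le_right _ _))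
    set b' : ℕ → ℂ := fun n => if 1 ≤ n ∧ n ≤ N then b n else 0 with hb'
    have hb's : ∀ m, b' m ≠ 0 → 1 ≤ m ∧ m ≤ N := by
      intro m hm
      by_contra hcon
      apply hm
      rw [hb']
      simp only
      rw [if_neg hcon]
    have hdp : ∀ t, dp N b' t = dp N b t := by
      intro t
      unfold dp
      refine Finset.sum_congr rfl fun m hm => ?_
      rw [hb']
      simp only
      rw [if_pos (Finset.mem_Icc.mp hm)]
    have h5 : ∀ t, dp M e t * dp N b t = dp (M * N) (cv e b') t := by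
      intro t
      rw [← hdp t]
      exact Pool.Agent.Q84.UM.t_DPM.1 M N e b' t (Pool.Agent.Q98.UM.supp_zero hEK.supp) (Pool.Agent.Q98.UM.supp_zero hb's)
    have hMN : ((M * N : ℕ) : ℝ) ≤ T ^ (1 / 4 : ℝ) := by
      push_cast
      calc (M : ℝ) * N ≤ T ^ (1 / 8 : ℝ) * T ^ (1 / 8 : ℝ) := mul_le_mul hM8 hN8 (by positivity) (by positivity)
        _ = T ^ (1 / 4 : ℝ) := by rw [← Real.rpow_add hT0]; norm_num
    have h6 := Pool.Agent.Q84.UM.t_MVL T hT16 (M * N) hMN (cv e b')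
    have h7 : 0 ≤ ∫ t in T..(2 * T), ‖dp (M * N) (cv e b') t‖ ^ 2 :=
      intervalIntegral.integral_nonneg (by linarith) fun t _ => by positivity
    simp_rw [h5]
    constructor
    · have h4 := g3 n k α hkabs hα M e J M₀ q w hEK N hN2' b' hb's
      simp_rw [hdp] at h4
      refine le_trans (ENNReal.ofReal_le_ofReal ?_) h4
      calc min (c' / 2) (c₃ / 2 * Real.exp (-Cl)) * ∫ t in T..(2 * T), ‖dp (M * N) (cv e b') t‖ ^ 2
          ≤ c' / 2 * ∫ t in T..(2 * T), ‖dp (M * N) (cv e b') t‖ ^ 2 := mul_le_mul_of_nonneg_right (min_le_left _ _) h7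
        _ ≤ c' / 2 * (2 * T * N2 (M * N) (cv e b')) := mul_le_mul_of_nonneg_left h6.2 (by positivity)
        _ = c' * T * N2 (M * N) (cv e b') := by ring
    · have h4 := g1 k α hk0 hk1 hα N hN1 b' hb's
      simp_rw [hdp] at h4
      refine h4.trans ?_
      have h8 : C₁ * T * N2 (M * N) (cv e b') ≤ 2 * C₁ * ∫ t in T..(2 * T), ‖dp (M * N) (cv e b') t‖ ^ 2 := by
        have := mul_le_mul_of_nonneg_left h6.1 (show 0 ≤ 2 * C₁ by positivity)
        linarith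
      refine h8.trans (mul_le_mul_of_nonneg_right ?_ h7)
      have : 0 ≤ 2 * C₃ * Real.exp Cu := by positivity
      linarith

end Pool.Agent.U196.UM
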