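import Pool.Agent.U196.UM.Mass3

set_option autoImplicit false

/-! The size of zeta on the critical line relative to every Dirichlet polynomial: extremal polynomials. -/

namespace Pool.Agent.U196.UM

open Filter Topology MeasureTheory Complex
open Pool.Agent.Q97.UM Pool.Agent.Q98.UM

theorem dp_sub_smul {X N : ℕ} (hX : 1 ≤ X) {r : ℕ → ℂ} (hr : ∀ n, r n ≠ 0 → 1 ≤ n ∧ n ≤ N) (z : ℂ) (t : ℝ) :
    dp (X * N) (fun n => cv (prc X) r n - z * r n) t = (dp X (prc X) t - z) * dp N r t := by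
  have hp : ∀ n, X < n → prc X n = 0 := by
    intro n hn
    unfold prc
    rw [if_neg]
    rintro ⟨_, h⟩
    omega
  have h1 := Pool.Agent.Q84.UM.t_DPM.1 X N (prc X) r t hp (supp_zero hr)
  have h2 : dp (X * N) r t = dp N r t := by
    unfold dp
    have hsub : Finset.Icc 1 N ⊆ Finset.Icc 1 (X * N) := Finset.Icc_subset_Icc_right (Nat.le_mul_of_pos_left N hX)
    rw [← Finset.sum_subset hsub]
    intro n _ hn
    rw [Finset.mem_Icc] at hn
    have : r n = 0 := by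
      by_contra h
      exact hn (hr n h)
    rw [this, zero_mul]
  have h3 : dp (X * N) (fun n => cv (prc X) r n - z * r n) t = dp (X * N) (cv (prc X) r) t - z * dp (X * N) r t := by
    unfold dp
    rw [Finset.mul_sum, ← Finset.sum_sub_distrib]
    refine Finset.sum_congr rfl fun n _ => ?_
    ring
  rw [h3, ← h1, h2]
  ring

/-- **Sharpness**: on the mass of suitable Dirichlet polynomials `log |ζ|` is about `± a`, `a ≥ c √(log T / log log T)`. -/
theorem extremal {θ : ℝ} (hθ : 0 < θ) : ∃ c C : ℝ, 0 < c ∧ 0 < C ∧ ∀ᶠ T : ℝ in atTop, ∀ σ : ℝ, σ = 1 ∨ σ = -1 →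
    ∃ (N : ℕ) (b : ℕ → ℂ) (a : ℝ), (N : ℝ) ≤ T ^ θ ∧ 0 < (∫ t in T..(2 * T), ‖dp N b t‖ ^ 2) ∧
      c * Real.sqrt (Real.log T / Real.log (Real.log T)) ≤ a ∧
      IntervalIntegrable (fun t => (Real.log ‖zt t‖ - σ * a) ^ 2 * ‖dp N b t‖ ^ 2) volume T (2 * T) ∧
      ∫ t in T..(2 * T), (Real.log ‖zt t‖ - σ * a) ^ 2 * ‖dp N b t‖ ^ 2 ≤
        C * Real.log (Real.log T) ^ 2 * ∫ t in T..(2 * T), ‖dp N b t‖ ^ 2 := by
  obtain ⟨θ₂, δ₀, hθ₂, hδ₀, hTHP⟩ := b_THP 2
  set δ : ℝ := min δ₀ (1 / 16) with hδd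
  have hδ : 0 < δ := by positivity
  have hδ16 : δ ≤ 1 / 16 := min_le_right _ _
  have hδ1 : δ ≤ 1 := by linarith
  obtain ⟨C₁, hC₁, hT1⟩ := hTHP δ hδ (min_le_left _ _)
  obtain ⟨C₃, hC₃, hEP⟩ := ep_prc
  set θ' : ℝ := min θ (min θ₂ (1 / 16)) with hθ'
  have hθ'0 : 0 < θ' := by positivity
  have hθ'1 : θ' ≤ 1 := (min_le_right _ _).trans ((min_le_right _ _).trans (by norm_num))
  obtain ⟨c, C, hc, hC, hR⟩ := Pool.Agent.Q241.UM.t_RES θ' hθ'0 hθ'1
  refine ⟨c, 3 * (2 * C₁ + (1 + C₃) ^ 2 + 4 * C) + 1, hc, by positivity, ?_⟩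
  filter_upwards [hT1, hR, hEP δ hδ hδ1, growth δ 1 1 hδ one_pos, eventually_ge_atTop 16] with T h1 h2 h3 h4 hT16 σ hσ
  obtain ⟨N, r, a, hN, hr, hr1, ha, hX⟩ := h2 σ hσ
  obtain ⟨hL40, -, hLL1, hL4, -⟩ := h4
  set X := ⌊T ^ δ⌋₊ with hXd
  have hT0 : 0 < T := by linarith
  have hTT : T ≤ 2 * T := by linarith
  have hXlow : Real.log T ^ 4 ≤ X := by
    have : T ^ δ < X + 1 := Nat.lt_floor_add_one _
    linarith
  have hXup : (X : ℝ) ≤ T ^ δ := Nat.floor_le (by positivity)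
  have hXT : (X : ℝ) ≤ T := hXup.trans (by
    calc T ^ δ ≤ T ^ (1 : ℝ) := Real.rpow_le_rpow_of_exponent_le (by linarith) hδ1
      _ = T := Real.rpow_one T)
  have hX1 : 1 ≤ X := by
    have : (1:ℝ) ≤ X := by
      have : (1:ℝ) ≤ Real.log T ^ 4 := one_le_pow₀ (by linarith)
      linarith
    exact_mod_cast this
  have h5 := hX X hXlow hXT
  have hNθ : (N : ℝ) ≤ T ^ θ := hN.trans (Real.rpow_le_rpow_of_exponent_le (by linarith) (min_le_left _ _))
  have hN1 : (N : ℝ) ≤ T ^ θ₂ := hN.trans (Real.rpow_le_rpow_of_exponent_le (by linarith)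
    ((min_le_right _ _).trans (min_le_left _ _)))
  have hN16 : (N : ℝ) ≤ T ^ (1 / 16 : ℝ) := hN.trans (Real.rpow_le_rpow_of_exponent_le (by linarith)
    ((min_le_right _ _).trans (min_le_right _ _)))
  have hN4 : (N : ℝ) ≤ T ^ (1 / 4 : ℝ) := hN16.trans (Real.rpow_le_rpow_of_exponent_le (by linarith) (by norm_num))
  have hXN4 : ((X * N : ℕ) : ℝ) ≤ T ^ (1 / 4 : ℝ) := by
    push_cast
    calc (X : ℝ) * N ≤ T ^ δ * T ^ (1 / 16 : ℝ) := mul_le_mul hXup hN16 (by positivity) (by positivity)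
      _ = T ^ (δ + 1 / 16) := by rw [← Real.rpow_add hT0]
      _ ≤ _ := Real.rpow_le_rpow_of_exponent_le (by linarith) (by linarith)
  obtain ⟨hI, hI2⟩ := h1 N hN1 r
  set S : ℝ := ∫ t in T..(2 * T), ‖dp N r t‖ ^ 2 with hS
  have hTN : T * N2 N r ≤ 2 * S := N2_le hT16 hN4 r
  have hSpos : 0 < S := by nlinarith
  refine ⟨N, r, a, hNθ, hSpos, ha, ?_⟩
  have hBc : Continuous (dp N r) := (Pool.Agent.Q84.UM.t_DPM.2.2 _ _ 0).2
  set g1 : ℝ → ℝ := fun t => |Real.log ‖zt t‖ - EP X t| ^ 2 * ‖dp N r t‖ ^ 2 with hg1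
  set g3 : ℝ → ℝ := fun t => ‖dp (X * N) (fun n => cv (prc X) r n - σ * a * r n) t‖ ^ 2 with hg3
  have hg3c : Continuous g3 := by
    have : Continuous (dp (X * N) (fun n => cv (prc X) r n - σ * a * r n)) := (Pool.Agent.Q84.UM.t_DPM.2.2 _ _ 0).2
    rw [hg3]; fun_prop
  have hg1i : IntervalIntegrable g1 volume T (2 * T) := by
    refine hI.mono_set ?_
    rw [Set.uIcc_of_le hTT, Set.uIcc_of_le (by linarith)]
    exact Set.Icc_subset_Icc (by linarith) (by linarith)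
  set R : ℝ := Real.log (Real.log T) + C₃ with hR
  have hB2c : Continuous fun t => ‖dp N r t‖ ^ 2 := by fun_prop
  have hpt : ∀ t, (Real.log ‖zt t‖ - σ * a) ^ 2 * ‖dp N r t‖ ^ 2 ≤ 3 * (g1 t + R ^ 2 * ‖dp N r t‖ ^ 2 + g3 t) := by
    intro t
    have b1 := h3 t
    have b2 : g3 t = ‖dp X (prc X) t - σ * a‖ ^ 2 * ‖dp N r t‖ ^ 2 := by
      rw [hg3]
      simp only
      have := dp_sub_smul hX1 hr ((σ : ℂ) * a) t
      rw [this, norm_mul, mul_pow]
    have b3 : |(dp X (prc X) t).re - σ * a| ≤ ‖dp X (prc X) t - σ * a‖ := by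
      have : (dp X (prc X) t).re - σ * a = (dp X (prc X) t - σ * a).re := by
        simp
      rw [this]
      exact abs_re_le_norm _
    have b4 : (Real.log ‖zt t‖ - σ * a) ^ 2 ≤ 3 * (|Real.log ‖zt t‖ - EP X t| ^ 2 + R ^ 2 + ‖dp X (prc X) t - σ * a‖ ^ 2) := by
      set x := Real.log ‖zt t‖ - EP X t
      set y := EP X t - (dp X (prc X) t).re
      set z := (dp X (prc X) t).re - σ * a
      have e : Real.log ‖zt t‖ - σ * a = x + y + z := by simp only [x, y, z]; ring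
      rw [e, sq_abs]
      have c1 : y ^ 2 ≤ R ^ 2 := sq_le_sq' (abs_le.1 b1).1 (abs_le.1 b1).2
      have c2 : z ^ 2 ≤ ‖dp X (prc X) t - σ * a‖ ^ 2 := by
        rw [← sq_abs z]; exact pow_le_pow_left₀ (abs_nonneg _) b3 2
      nlinarith [sq_nonneg (x - y), sq_nonneg (y - z), sq_nonneg (x - z)]
    rw [b2]
    have b5 := mul_le_mul_of_nonneg_right b4 (sq_nonneg ‖dp N r t‖)
    refine b5.trans (le_of_eq ?_)
    rw [hg1]
    ring
  have hmaj : IntervalIntegrable (fun t => 3 * (g1 t + R ^ 2 * ‖dp N r t‖ ^ 2 + g3 t)) volume T (2 * T) :=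
    ((hg1i.add ((continuous_const.mul hB2c).intervalIntegrable _ _)).add (hg3c.intervalIntegrable _ _)).const_mul _
  have hmeas : Measurable fun t => (Real.log ‖zt t‖ - σ * a) ^ 2 * ‖dp N r t‖ ^ 2 := by
    have h := continuous_zt.measurable
    have h' : Measurable fun t => (Real.log ‖zt t‖ - σ * a) ^ 2 := by fun_prop
    exact h'.mul hB2c.measurable
  have hint : IntervalIntegrable (fun t => (Real.log ‖zt t‖ - σ * a) ^ 2 * ‖dp N r t‖ ^ 2) volume T (2 * T) := by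
    refine hmaj.mono_fun hmeas.aestronglyMeasurable (Filter.Eventually.of_forall fun t => ?_)
    have h0 : 0 ≤ (Real.log ‖zt t‖ - σ * a) ^ 2 * ‖dp N r t‖ ^ 2 := by positivity
    beta_reduce
    rw [Real.norm_of_nonneg h0, Real.norm_of_nonneg (h0.trans (hpt t))]
    exact hpt t
  refine ⟨hint, ?_⟩
  have i1 : ∫ t in T..(2 * T), g1 t ≤ 2 * C₁ * S := by
    have j1 : ∫ t in T..(2 * T), g1 t ≤ ∫ t in (T / 2)..(4 * T), g1 t := by
      refine intervalIntegral.integral_mono_interval (by linarith) hTT (by linarith) ?_ hI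
      exact Filter.Eventually.of_forall fun t => by rw [hg1]; simp only [Pi.zero_apply]; positivity
    have j2 : C₁ * T * N2 N r ≤ C₁ * (2 * S) := by
      rw [mul_assoc]; exact mul_le_mul_of_nonneg_left hTN hC₁
    linarith
  have i3 : ∫ t in T..(2 * T), g3 t ≤ 4 * C * Real.log (Real.log T) * S := by
    have j1 := (Pool.Agent.Q84.UM.t_MVL T hT16 (X * N) hXN4 (fun n => cv (prc X) r n - σ * a * r n)).2
    have j2 : 2 * T * N2 (X * N) (fun n => cv (prc X) r n - σ * a * r n) ≤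
        2 * T * (C * Real.log (Real.log T) * N2 N r) := mul_le_mul_of_nonneg_left h5 (by linarith)
    have j3 : 2 * T * (C * Real.log (Real.log T) * N2 N r) = 2 * C * Real.log (Real.log T) * (T * N2 N r) := by ring
    have j4 : 2 * C * Real.log (Real.log T) * (T * N2 N r) ≤ 2 * C * Real.log (Real.log T) * (2 * S) :=
      mul_le_mul_of_nonneg_left hTN (by positivity)
    calc ∫ t in T..(2 * T), g3 t ≤ 2 * T * N2 (X * N) (fun n => cv (prc X) r n - σ * a * r n) := j1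
      _ ≤ 2 * C * Real.log (Real.log T) * (2 * S) := by rw [j3] at j2; exact j2.trans j4
      _ = _ := by ring
  set LL := Real.log (Real.log T) with hLL
  calc ∫ t in T..(2 * T), (Real.log ‖zt t‖ - σ * a) ^ 2 * ‖dp N r t‖ ^ 2
      ≤ ∫ t in T..(2 * T), 3 * (g1 t + R ^ 2 * ‖dp N r t‖ ^ 2 + g3 t) :=
        intervalIntegral.integral_mono_on hTT hint hmaj fun t _ => hpt t
    _ = 3 * ((∫ t in T..(2 * T), g1 t) + R ^ 2 * S + (∫ t in T..(2 * T), g3 t)) := by
        rw [intervalIntegral.integral_const_mul, intervalIntegral.integral_add, intervalIntegral.integral_add,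
          intervalIntegral.integral_const_mul]
        · exact hg1i
        · exact (continuous_const.mul hB2c).intervalIntegrable _ _
        · exact hg1i.add ((continuous_const.mul hB2c).intervalIntegrable _ _)
        · exact hg3c.intervalIntegrable _ _
    _ ≤ 3 * (2 * C₁ * S + R ^ 2 * S + 4 * C * LL * S) := by linarith
    _ ≤ (3 * (2 * C₁ + (1 + C₃) ^ 2 + 4 * C) + 1) * LL ^ 2 * S := by
        have k1 : R ^ 2 ≤ (1 + C₃) ^ 2 * LL ^ 2 := by
          rw [← mul_pow]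
          apply pow_le_pow_left₀ (by positivity)
          rw [hR]; nlinarith
        have k2 : 1 ≤ LL ^ 2 := one_le_pow₀ hLL1
        have k3 : LL ≤ LL ^ 2 := by nlinarith
        have k4 : 2 * C₁ * S ≤ 2 * C₁ * LL ^ 2 * S := by
          have : 0 ≤ 2 * C₁ * S := by positivity
          nlinarith
        have k5 : R ^ 2 * S ≤ (1 + C₃) ^ 2 * LL ^ 2 * S := mul_le_mul_of_nonneg_right k1 hSpos.le
        have k6 : 4 * C * LL * S ≤ 4 * C * LL ^ 2 * S := by
          have : 0 ≤ 4 * C * S := by positivity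
          nlinarith
        have k7 : 0 ≤ LL ^ 2 * S := by positivity
        nlinarith

end Pool.Agent.U196.UM
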