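import Pool.Agent.U196.UM.Mass5
import Pool.Agent.U196.UM.Mass4

set_option autoImplicit false

/-! The size of the derivative at the zeros, relative to every Dirichlet polynomial. -/

namespace Pool.Agent.U196.UM

open Filter Topology MeasureTheory Complex
open Pool.Agent.Q97.UM Pool.Agent.Q98.UM

/-- the square root of `log T / log log T` -/
noncomputable def sq (T : ℝ) : ℝ := Real.sqrt (Real.log T / Real.log (Real.log T))

/-- the isolated simple zeros are among all zeros -/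
theorem ZI_le (d T : ℝ) (f : ℂ → ℝ) (hf : ∀ s, 0 ≤ f s) :
    ∑ s ∈ ZI d T, f s ≤ ∑ s ∈ H370.Zf riemannZeta T (2 * T), (mz s : ℝ) * f s := by
  refine (Finset.sum_le_sum fun s hs => ?_).trans
    (Finset.sum_le_sum_of_subset_of_nonneg (s := ZI d T) (t := H370.Zf riemannZeta T (2 * T)) ?_ fun s _ _ => ?_)
  · unfold ZI at hs
    rw [Finset.mem_filter] at hs
    rw [hs.2.2.1]
    simp
  · unfold ZI
    exact Finset.filter_subset _ _
  · exact mul_nonneg (Nat.cast_nonneg _) (hf s)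

theorem cheb {S : Finset ℂ} {f g : ℂ → ℝ} {P : ℂ → Prop} [DecidablePred P] {κ A B : ℝ} (hκ : 0 < κ)
    (hf : ∀ s ∈ S, 0 ≤ f s) (hg : ∀ s ∈ S, 0 ≤ g s)
    (h : ∀ s ∈ S, ¬ P s → κ * f s ≤ g s) (hA : A ≤ ∑ s ∈ S, f s) (hB : ∑ s ∈ S, g s ≤ B) :
    A - B / κ ≤ ∑ s ∈ S.filter P, f s := by
  have h1 : ∑ s ∈ S.filter P, f s + ∑ s ∈ S.filter (fun s => ¬ P s), f s = ∑ s ∈ S, f s :=
    Finset.sum_filter_add_sum_filter_not S P f
  have h2 : κ * ∑ s ∈ S.filter (fun s => ¬ P s), f s ≤ B := by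
    rw [Finset.mul_sum]
    refine (Finset.sum_le_sum fun s hs => ?_).trans
      ((Finset.sum_le_sum_of_subset_of_nonneg (Finset.filter_subset (fun s => ¬ P s) S) fun s hs _ => hg s hs).trans hB)
    rw [Finset.mem_filter] at hs
    exact h s hs.1 hs.2
  have h3 : ∑ s ∈ S.filter (fun s => ¬ P s), f s ≤ B / κ := by
    rw [le_div_iff₀ hκ]
    linarith
  linarith

/-- **Typical size of the derivative.** -/
theorem quant {ε : ℝ} (hε : 0 < ε) {d θ₁ : ℝ} (hθ₁ : 0 < θ₁)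
    (hS : ∀ᶠ T : ℝ in atTop, ∀ N : ℕ, (N : ℝ) ≤ T ^ θ₁ → ∀ b : ℕ → ℂ,
      (2 - H370.cMTinv - ε) * (Real.log T / (2 * Real.pi)) * (T * N2 N b) ≤ ∑ s ∈ ZI d T, ‖dp N b s.im‖ ^ 2) (hd : 0 < d) :
    ∃ θ K : ℝ, 0 < θ ∧ θ ≤ θ₁ ∧ 0 < K ∧ ∀ᶠ T : ℝ in atTop, ∀ N : ℕ, (N : ℝ) ≤ T ^ θ → ∀ b : ℕ → ℂ,
      (2 - H370.cMTinv - 2 * ε) * (Real.log T / (2 * Real.pi)) * (T * N2 N b) ≤
        ∑ s ∈ (ZI d T).filter (fun s => |Real.log ‖deriv riemannZeta s‖| ≤ K * sq T), ‖dp N b s.im‖ ^ 2 := by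
  obtain ⟨θ₂, hθ₂, hθ₂', hS2⟩ := b_SAMP 1 one_pos
  obtain ⟨θ₃, δ₀, hθ₃, hδ₀, hTHD⟩ := b_THD 2
  set δ : ℝ := min δ₀ (θ₂ / 2) with hδd
  have hδ : 0 < δ := by positivity
  have hδθ : δ ≤ θ₂ / 2 := min_le_right _ _
  have hδ1 : δ ≤ 1 := by linarith
  obtain ⟨C₁, hC₁, hT1⟩ := hTHD δ d hδ (min_le_left _ _) hd
  obtain ⟨C₂, hC₂, hT2⟩ := bigS hδ hδθ (by linarith : θ₂ ≤ 1)
  obtain ⟨C₃, hC₃, hEP⟩ := ep_prc
  have hpi := Real.pi_pos
  -- the constant
  set κ : ℝ := 2 * (C₁ + 2 * C₂) * (2 * Real.pi) / ε + 1 with hκ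
  have hκ0 : 0 < κ := by positivity
  have hκ1 : 2 * (C₁ + 2 * C₂) / κ ≤ ε / (2 * Real.pi) := by
    rw [div_le_div_iff₀ hκ0 (by positivity), hκ]
    field_simp
    nlinarith
  refine ⟨min θ₁ (min θ₃ (θ₂ / 2)), 3 + Real.sqrt κ, by positivity, min_le_left _ _, by positivity, ?_⟩
  filter_upwards [hS, hS2, hT1, hT2, hEP δ hδ hδ1, growth2 C₃, eventually_ge_atTop 16,
    (Real.tendsto_log_atTop.comp Real.tendsto_log_atTop).eventually_ge_atTop 1] with T h1 h2 h3 h4 h5 h6 hT16 hLL1 N hNT b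
  simp only [Function.comp] at hLL1
  obtain ⟨F, G, hFG, hG, hF⟩ := h4
  obtain ⟨hr1, hr2, hr3⟩ := h6
  have hsq : sq T = Real.sqrt (Real.log T / Real.log (Real.log T)) := rfl
  rw [← hsq] at hr1 hr2
  set R := sq T with hR
  set q := Real.log T / Real.log (Real.log T) with hq
  have hR2 : R ^ 2 = q := Real.sq_sqrt (by linarith)
  have hR0 : 0 ≤ R := Real.sqrt_nonneg _
  have hT0 : 0 < T := by linarith
  have hL0 : 0 < Real.log T := Real.log_pos (by linarith)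
  have hle : ∀ {a c : ℝ}, a ≤ c → T ^ a ≤ T ^ c := fun h => Real.rpow_le_rpow_of_exponent_le (by linarith) h
  have hN1 : (N : ℝ) ≤ T ^ θ₁ := hNT.trans (hle (min_le_left _ _))
  have hN3 : (N : ℝ) ≤ T ^ θ₃ := hNT.trans (hle ((min_le_right _ _).trans (min_le_left _ _)))
  have hN2' : (N : ℝ) ≤ T ^ (θ₂ / 2) := hNT.trans (hle ((min_le_right _ _).trans (min_le_right _ _)))
  have hN20 : 0 ≤ N2 N b := Pool.Agent.Q98.UM.N2_nonneg _ _
  -- bound for the sum over `ZI`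
  have hall : ∀ (M : ℕ) (c : ℕ → ℂ), (M : ℝ) ≤ T ^ θ₂ → ∑ s ∈ ZI d T, (1:ℝ) * ‖dp M c s.im‖ ^ 2 ≤
      2 * (Real.log T * T) * N2 M c := by
    intro M c hM
    have k1 := (h2 M hM c).2.2
    have k2 := ZI_le d T (fun s => ‖dp M c s.im‖ ^ 2) (fun s => by positivity)
    have k3 := (abs_le.1 k1).2
    have k4 : Real.log T / (2 * Real.pi) ≤ Real.log T := div_le_self hL0.le (by have := Real.pi_gt_three; linarith)
    have k5 : 0 ≤ T * N2 M c := mul_nonneg hT0.le (Pool.Agent.Q98.UM.N2_nonneg _ _)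
    have k6 := mul_le_mul_of_nonneg_right k4 k5
    simp only [one_mul]
    refine k2.trans ?_
    calc ∑ s ∈ H370.Zf riemannZeta T (2 * T), (mz s : ℝ) * ‖dp M c s.im‖ ^ 2
        ≤ Real.log T / (2 * Real.pi) * (T * N2 M c) + 1 * Real.log T * (T * N2 M c) := by linarith
      _ ≤ Real.log T * (T * N2 M c) + 1 * Real.log T * (T * N2 M c) := by linarith
      _ = _ := by ring
  have hFb : ∑ s ∈ ZI d T, ‖F s.im‖ ^ 2 * ‖dp N b s.im‖ ^ 2 ≤ C₂ * q * (2 * (Real.log T * T) * N2 N b) := by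
    rcases Nat.eq_zero_or_pos N with hN0 | hN0
    · have : ∀ s ∈ ZI d T, ‖F s.im‖ ^ 2 * ‖dp N b s.im‖ ^ 2 = 0 := by
        intro s _
        rw [hN0]; unfold dp; simp
      rw [Finset.sum_eq_zero this]
      positivity
    · have j1 := hF (ZI d T) (fun _ => 1) (2 * (Real.log T * T)) (by positivity) (fun _ _ => zero_le_one) hall N hN0 hN2'
        (tr N b) (tr_supp N b)
      rw [N2_tr] at j1
      simpa only [one_mul, dp_tr] using j1
  have hXb := (h3 N hN3 b).1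
  -- Chebyshev
  have hch := cheb (S := ZI d T) (f := fun s => ‖dp N b s.im‖ ^ 2)
    (g := fun s => 2 * (|Real.log ‖deriv riemannZeta s‖ - Real.log (Real.log T) - EP ⌊T ^ δ⌋₊ s.im| ^ 2 * ‖dp N b s.im‖ ^ 2 +
      ‖F s.im‖ ^ 2 * ‖dp N b s.im‖ ^ 2)) (P := fun s => |Real.log ‖deriv riemannZeta s‖| ≤ (3 + Real.sqrt κ) * R)
    (κ := κ * q) (B := 2 * (C₁ + 2 * C₂) * q * (Real.log T * (T * N2 N b))) (by positivity) (fun s _ => by positivity)
    (fun s _ => by positivity) ?_ (h1 N hN1 b) ?_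
  · refine le_trans ?_ hch
    have : 2 * (C₁ + 2 * C₂) * q * (Real.log T * (T * N2 N b)) / (κ * q) ≤ ε / (2 * Real.pi) * (Real.log T * (T * N2 N b)) := by
      have e1 : 2 * (C₁ + 2 * C₂) * q * (Real.log T * (T * N2 N b)) / (κ * q) =
          2 * (C₁ + 2 * C₂) / κ * (Real.log T * (T * N2 N b)) := by
        have : q ≠ 0 := by linarith
        field_simp
      rw [e1]
      exact mul_le_mul_of_nonneg_right hκ1 (by positivity)
    have e2 : (2 - H370.cMTinv - 2 * ε) * (Real.log T / (2 * Real.pi)) * (T * N2 N b) =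
        (2 - H370.cMTinv - ε) * (Real.log T / (2 * Real.pi)) * (T * N2 N b) -
          ε / (2 * Real.pi) * (Real.log T * (T * N2 N b)) := by ring
    rw [e2]
    linarith
  · intro s hs hbad
    push Not at hbad
    set x := |Real.log ‖deriv riemannZeta s‖ - Real.log (Real.log T) - EP ⌊T ^ δ⌋₊ s.im| with hx
    have b1 := (h5 s.im).trans hr1
    have b2 : |(dp ⌊T ^ δ⌋₊ (prc ⌊T ^ δ⌋₊) s.im).re| ≤ ‖F s.im‖ + R := by
      rw [hFG s.im]
      refine (abs_re_le_norm _).trans ((norm_add_le _ _).trans ?_)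
      have := (hG s.im).trans hr2
      linarith
    have b3 : |Real.log ‖deriv riemannZeta s‖| ≤ x + Real.log (Real.log T) +
        |EP ⌊T ^ δ⌋₊ s.im - (dp ⌊T ^ δ⌋₊ (prc ⌊T ^ δ⌋₊) s.im).re| + |(dp ⌊T ^ δ⌋₊ (prc ⌊T ^ δ⌋₊) s.im).re| := by
      rw [hx]
      set u := Real.log ‖deriv riemannZeta s‖
      set v := Real.log (Real.log T)
      set w := EP ⌊T ^ δ⌋₊ s.im
      set z := (dp ⌊T ^ δ⌋₊ (prc ⌊T ^ δ⌋₊) s.im).re
      have e : u = (u - v - w) + v + (w - z) + z := by ring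
      calc |u| = |(u - v - w) + v + (w - z) + z| := by rw [← e]
        _ ≤ |(u - v - w) + v + (w - z)| + |z| := abs_add_le _ _
        _ ≤ |(u - v - w) + v| + |w - z| + |z| := by have := abs_add_le ((u - v - w) + v) (w - z); linarith
        _ ≤ |u - v - w| + |v| + |w - z| + |z| := by have := abs_add_le (u - v - w) v; linarith
        _ = _ := by rw [abs_of_nonneg (by linarith : 0 ≤ v)]
    have b4 : Real.log (Real.log T) ≤ R := by linarith
    have b5 : Real.sqrt κ * R ≤ x + ‖F s.im‖ := by nlinarith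
    have b6 : (Real.sqrt κ * R) ^ 2 ≤ (x + ‖F s.im‖) ^ 2 := pow_le_pow_left₀ (by positivity) b5 2
    rw [mul_pow, Real.sq_sqrt hκ0.le, hR2] at b6
    have b7 : (x + ‖F s.im‖) ^ 2 ≤ 2 * (x ^ 2 + ‖F s.im‖ ^ 2) := by nlinarith [sq_nonneg (x - ‖F s.im‖)]
    calc κ * q * ‖dp N b s.im‖ ^ 2 ≤ (2 * (x ^ 2 + ‖F s.im‖ ^ 2)) * ‖dp N b s.im‖ ^ 2 :=
          mul_le_mul_of_nonneg_right (b6.trans b7) (by positivity)
      _ = _ := by ring
  · rw [← Finset.mul_sum, Finset.sum_add_distrib]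
    have q1 : C₁ * Real.log T * (T * N2 N b) ≤ C₁ * q * (Real.log T * (T * N2 N b)) := by
      have : 0 ≤ C₁ * (Real.log T * (T * N2 N b)) := by positivity
      nlinarith
    calc 2 * (∑ s ∈ ZI d T, |Real.log ‖deriv riemannZeta s‖ - Real.log (Real.log T) - EP ⌊T ^ δ⌋₊ s.im| ^ 2 * ‖dp N b s.im‖ ^ 2 +
          ∑ s ∈ ZI d T, ‖F s.im‖ ^ 2 * ‖dp N b s.im‖ ^ 2)
        ≤ 2 * (C₁ * q * (Real.log T * (T * N2 N b)) + C₂ * q * (2 * (Real.log T * T) * N2 N b)) := by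
          linarith
      _ = _ := by ring

/-- **Sharpness**: there are Dirichlet polynomials whose mass sits at zeros with large (small) derivative. -/
theorem quant_sharp {ε : ℝ} (hε : 0 < ε) {d θ₁ : ℝ} (hθ₁ : 0 < θ₁)
    (hS : ∀ᶠ T : ℝ in atTop, ∀ N : ℕ, (N : ℝ) ≤ T ^ θ₁ → ∀ b : ℕ → ℂ,
      (2 - H370.cMTinv - ε) * (Real.log T / (2 * Real.pi)) * (T * N2 N b) ≤ ∑ s ∈ ZI d T, ‖dp N b s.im‖ ^ 2) (hd : 0 < d)
    {θ : ℝ} (hθ : 0 < θ) :
    ∃ c : ℝ, 0 < c ∧ ∀ᶠ T : ℝ in atTop, ∀ σ : ℝ, σ = 1 ∨ σ = -1 → ∃ (N : ℕ) (b : ℕ → ℂ), (N : ℝ) ≤ T ^ θ ∧ 0 < N2 N b ∧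
      (2 - H370.cMTinv - 2 * ε) * (Real.log T / (2 * Real.pi)) * (T * N2 N b) ≤
        ∑ s ∈ (ZI d T).filter (fun s => c * sq T ≤ σ * Real.log ‖deriv riemannZeta s‖), ‖dp N b s.im‖ ^ 2 := by
  obtain ⟨θ₂, hθ₂, hθ₂', hS2⟩ := b_SAMP 1 one_pos
  obtain ⟨θ₃, δ₀, hθ₃, hδ₀, hTHD⟩ := b_THD 2
  set δ : ℝ := min δ₀ (θ₂ / 2) with hδd
  have hδ : 0 < δ := by positivity
  have hδθ : δ ≤ θ₂ / 2 := min_le_right _ _
  have hδ1 : δ ≤ 1 := by linarith
  obtain ⟨C₁, hC₁, hT1⟩ := hTHD δ d hδ (min_le_left _ _) hd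
  obtain ⟨C₃, hC₃, hEP⟩ := ep_prc
  set θ' : ℝ := min (min θ θ₁) (min θ₃ (θ₂ / 2)) with hθ'
  have hθ'0 : 0 < θ' := by positivity
  have hθ'1 : θ' ≤ 1 := (min_le_right _ _).trans ((min_le_right _ _).trans (by linarith))
  obtain ⟨c, C, hc, hC, hR⟩ := Pool.Agent.Q241.UM.t_RES θ' hθ'0 hθ'1
  have hpi := Real.pi_pos
  set D : ℝ := 4 * (C₁ + 2 + 2 * (1 + C₃) ^ 2 + 2 * C) with hD
  have hD0 : 0 < D := by positivity
  set c₀ : ℝ := 6 * Real.sqrt (ε * c ^ 2 / (8 * Real.pi * D)) with hc₀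
  have hc₀0 : 0 < c₀ := by positivity
  have hc₀2 : c₀ ^ 2 / 36 = ε * c ^ 2 / (8 * Real.pi * D) := by
    rw [hc₀, mul_pow, Real.sq_sqrt (by positivity)]
    ring
  refine ⟨c / 2, by positivity, ?_⟩
  filter_upwards [hS, hS2, hT1, hR, hEP δ hδ hδ1, growth δ c₀ 1 hδ hc₀0, eventually_ge_atTop 16,
    growth2 0] with T h1 h2 h3 h4 h5 h6 hT16 h7 σ hσ
  obtain ⟨N, r, a, hN, hr, hr1, ha, hX⟩ := h4 σ hσ
  obtain ⟨hL40, -, hLL1, hL4, hgr, -⟩ := h6
  have hr3 := h7.2.2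
  have hsq : sq T = Real.sqrt (Real.log T / Real.log (Real.log T)) := rfl
  rw [← hsq] at ha hgr
  set R := sq T with hR
  set q := Real.log T / Real.log (Real.log T) with hq
  have hR2 : R ^ 2 = q := Real.sq_sqrt (by linarith)
  have hR0 : 0 ≤ R := Real.sqrt_nonneg _
  have hT0 : 0 < T := by linarith
  have hL0 : 0 < Real.log T := Real.log_pos (by linarith)
  set LL := Real.log (Real.log T) with hLL
  have hle : ∀ {a c : ℝ}, a ≤ c → T ^ a ≤ T ^ c := fun h => Real.rpow_le_rpow_of_exponent_le (by linarith) h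
  have hNθ : (N : ℝ) ≤ T ^ θ := hN.trans (hle ((min_le_left _ _).trans (min_le_left _ _)))
  have hN1 : (N : ℝ) ≤ T ^ θ₁ := hN.trans (hle ((min_le_left _ _).trans (min_le_right _ _)))
  have hN3 : (N : ℝ) ≤ T ^ θ₃ := hN.trans (hle ((min_le_right _ _).trans (min_le_left _ _)))
  have hN2' : (N : ℝ) ≤ T ^ (θ₂ / 2) := hN.trans (hle ((min_le_right _ _).trans (min_le_right _ _)))
  have hN22 : (N : ℝ) ≤ T ^ θ₂ := hN2'.trans (hle (by linarith))
  have hN20 : 0 < N2 N r := by linarith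
  set X := ⌊T ^ δ⌋₊ with hXd
  have hXlow : Real.log T ^ 4 ≤ X := by
    have : T ^ δ < X + 1 := Nat.lt_floor_add_one _
    linarith
  have hXup : (X : ℝ) ≤ T ^ δ := Nat.floor_le (by positivity)
  have hXT : (X : ℝ) ≤ T := hXup.trans (by
    calc T ^ δ ≤ T ^ (1 : ℝ) := hle hδ1
      _ = T := Real.rpow_one T)
  have hX1 : 1 ≤ X := by
    have : (1:ℝ) ≤ X := by
      have : (1:ℝ) ≤ Real.log T ^ 4 := one_le_pow₀ (by linarith)
      linarith
    exact_mod_cast this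
  have hX5 := hX X hXlow hXT
  have hXN : ((X * N : ℕ) : ℝ) ≤ T ^ θ₂ := by
    push_cast
    calc (X : ℝ) * N ≤ T ^ δ * T ^ (θ₂ / 2) := mul_le_mul hXup hN2' (by positivity) (by positivity)
      _ = T ^ (δ + θ₂ / 2) := by rw [← Real.rpow_add hT0]
      _ ≤ _ := hle (by linarith)
  have hall : ∀ (M : ℕ) (c : ℕ → ℂ), (M : ℝ) ≤ T ^ θ₂ → ∑ s ∈ ZI d T, ‖dp M c s.im‖ ^ 2 ≤
      2 * (Real.log T * T) * N2 M c := by
    intro M c hM
    have k1 := (h2 M hM c).2.2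
    have k2 := ZI_le d T (fun s => ‖dp M c s.im‖ ^ 2) (fun s => by positivity)
    have k3 := (abs_le.1 k1).2
    have k4 : Real.log T / (2 * Real.pi) ≤ Real.log T := div_le_self hL0.le (by have := Real.pi_gt_three; linarith)
    have k5 : 0 ≤ T * N2 M c := mul_nonneg hT0.le (Pool.Agent.Q98.UM.N2_nonneg _ _)
    have k6 := mul_le_mul_of_nonneg_right k4 k5
    refine k2.trans ?_
    calc ∑ s ∈ H370.Zf riemannZeta T (2 * T), (mz s : ℝ) * ‖dp M c s.im‖ ^ 2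
        ≤ Real.log T / (2 * Real.pi) * (T * N2 M c) + 1 * Real.log T * (T * N2 M c) := by linarith
      _ ≤ Real.log T * (T * N2 M c) + 1 * Real.log T * (T * N2 M c) := by linarith
      _ = _ := by ring
  have i1 := (h3 N hN3 r).1
  have i2 := hall N r hN22
  have i3 : ∑ s ∈ ZI d T, ‖dp X (prc X) s.im - σ * a‖ ^ 2 * ‖dp N r s.im‖ ^ 2 ≤
      2 * C * LL * (Real.log T * (T * N2 N r)) := by
    have j1 := hall (X * N) (fun n => cv (prc X) r n - σ * a * r n) hXN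
    have j2 : ∀ s : ℂ, ‖dp (X * N) (fun n => cv (prc X) r n - σ * a * r n) s.im‖ ^ 2 =
        ‖dp X (prc X) s.im - σ * a‖ ^ 2 * ‖dp N r s.im‖ ^ 2 := by
      intro s
      have := dp_sub_smul hX1 hr ((σ : ℂ) * a) s.im
      rw [this, norm_mul, mul_pow]
    simp_rw [j2] at j1
    refine j1.trans ?_
    calc 2 * (Real.log T * T) * N2 (X * N) (fun n => cv (prc X) r n - σ * a * r n)
        ≤ 2 * (Real.log T * T) * (C * LL * N2 N r) := mul_le_mul_of_nonneg_left hX5 (by positivity)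
      _ = _ := by ring
  refine ⟨N, r, hNθ, hN20, ?_⟩
  have hch := cheb (S := ZI d T) (f := fun s => ‖dp N r s.im‖ ^ 2)
    (g := fun s => 4 * (|Real.log ‖deriv riemannZeta s‖ - LL - EP X s.im| ^ 2 * ‖dp N r s.im‖ ^ 2 +
      (LL ^ 2 + (1 + C₃) ^ 2 * LL ^ 2) * ‖dp N r s.im‖ ^ 2 + ‖dp X (prc X) s.im - σ * a‖ ^ 2 * ‖dp N r s.im‖ ^ 2))
    (P := fun s => c / 2 * R ≤ σ * Real.log ‖deriv riemannZeta s‖)
    (κ := c ^ 2 / 4 * q) (B := D * LL ^ 2 * (Real.log T * (T * N2 N r))) (by positivity) (fun s _ => by positivity)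
    (fun s _ => by positivity) ?_ (h1 N hN1 r) ?_
  · refine le_trans ?_ hch
    have : D * LL ^ 2 * (Real.log T * (T * N2 N r)) / (c ^ 2 / 4 * q) ≤ ε / (2 * Real.pi) * (Real.log T * (T * N2 N r)) := by
      have e0 : LL ^ 2 ≤ c₀ ^ 2 / 36 * q := by
        have e1 : LL ≤ c₀ / 6 * R := by linarith
        calc LL ^ 2 ≤ (c₀ / 6 * R) ^ 2 := pow_le_pow_left₀ (by linarith) e1 2
          _ = _ := by rw [mul_pow, hR2]; ring
      rw [hc₀2] at e0
      have e2 : D * LL ^ 2 ≤ ε / (2 * Real.pi) * (c ^ 2 / 4 * q) := by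
        calc D * LL ^ 2 ≤ D * (ε * c ^ 2 / (8 * Real.pi * D) * q) := mul_le_mul_of_nonneg_left e0 hD0.le
          _ = _ := by field_simp; ring
      rw [div_le_iff₀ (by positivity)]
      calc D * LL ^ 2 * (Real.log T * (T * N2 N r)) ≤ ε / (2 * Real.pi) * (c ^ 2 / 4 * q) * (Real.log T * (T * N2 N r)) :=
            mul_le_mul_of_nonneg_right e2 (by positivity)
        _ = _ := by ring
    have e2 : (2 - H370.cMTinv - 2 * ε) * (Real.log T / (2 * Real.pi)) * (T * N2 N r) =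
        (2 - H370.cMTinv - ε) * (Real.log T / (2 * Real.pi)) * (T * N2 N r) -
          ε / (2 * Real.pi) * (Real.log T * (T * N2 N r)) := by ring
    rw [e2]
    linarith
  · intro s hs hbad
    push Not at hbad
    have hσ2 : σ * σ = 1 := by rcases hσ with h | h <;> rw [h] <;> norm_num
    have b1 := h5 s.im
    set x := Real.log ‖deriv riemannZeta s‖ - LL - EP X s.im with hx
    set y := EP X s.im - (dp X (prc X) s.im).re with hy
    set z := (dp X (prc X) s.im).re - σ * a with hz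
    have b3 : |z| ≤ ‖dp X (prc X) s.im - σ * a‖ := by
      have : z = (dp X (prc X) s.im - σ * a).re := by
        rw [hz]; simp
      rw [this]
      exact abs_re_le_norm _
    have b4 : z ^ 2 ≤ ‖dp X (prc X) s.im - σ * a‖ ^ 2 := by
      rw [← sq_abs z]; exact pow_le_pow_left₀ (abs_nonneg _) b3 2
    have b5 : y ^ 2 ≤ (1 + C₃) ^ 2 * LL ^ 2 := by
      rw [← mul_pow, ← sq_abs y]
      refine pow_le_pow_left₀ (abs_nonneg _) (b1.trans ?_) 2
      nlinarith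
    have e : Real.log ‖deriv riemannZeta s‖ - σ * a = x + LL + y + z := by simp only [hx, hy, hz]; ring
    have b6 : (x + LL + y + z) ^ 2 ≤ 4 * (x ^ 2 + LL ^ 2 + y ^ 2 + z ^ 2) := by
      nlinarith [sq_nonneg (x - LL), sq_nonneg (x - y), sq_nonneg (x - z), sq_nonneg (LL - y), sq_nonneg (LL - z),
        sq_nonneg (y - z)]
    have b7 : c ^ 2 / 4 * q ≤ (Real.log ‖deriv riemannZeta s‖ - σ * a) ^ 2 := by
      have c1 : σ * (Real.log ‖deriv riemannZeta s‖ - σ * a) = σ * Real.log ‖deriv riemannZeta s‖ - a := by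
        rw [mul_sub, ← mul_assoc, hσ2, one_mul]
      have c2 : (Real.log ‖deriv riemannZeta s‖ - σ * a) ^ 2 = (a - σ * Real.log ‖deriv riemannZeta s‖) ^ 2 := by
        calc (Real.log ‖deriv riemannZeta s‖ - σ * a) ^ 2
            = (σ * σ) * (Real.log ‖deriv riemannZeta s‖ - σ * a) ^ 2 := by rw [hσ2, one_mul]
          _ = (σ * (Real.log ‖deriv riemannZeta s‖ - σ * a)) ^ 2 := by ring
          _ = _ := by rw [c1]; ring
      rw [c2]
      calc c ^ 2 / 4 * q = (c / 2 * R) ^ 2 := by rw [mul_pow, hR2]; ring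
        _ ≤ _ := pow_le_pow_left₀ (by positivity) (by linarith) 2
    rw [e] at b7
    have b8 : c ^ 2 / 4 * q ≤ 4 * (|x| ^ 2 + (LL ^ 2 + (1 + C₃) ^ 2 * LL ^ 2) + ‖dp X (prc X) s.im - σ * a‖ ^ 2) := by
      rw [sq_abs]
      linarith
    calc c ^ 2 / 4 * q * ‖dp N r s.im‖ ^ 2
        ≤ 4 * (|x| ^ 2 + (LL ^ 2 + (1 + C₃) ^ 2 * LL ^ 2) + ‖dp X (prc X) s.im - σ * a‖ ^ 2) * ‖dp N r s.im‖ ^ 2 :=
          mul_le_mul_of_nonneg_right b8 (by positivity)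
      _ = _ := by ring
  · rw [← Finset.mul_sum, Finset.sum_add_distrib, Finset.sum_add_distrib, ← Finset.mul_sum]
    set W := Real.log T * (T * N2 N r) with hW
    have hW0 : 0 ≤ W := by positivity
    have i1' : C₁ * Real.log T * (T * N2 N r) ≤ C₁ * LL ^ 2 * W := by
      have a1 : (1:ℝ) ≤ LL ^ 2 := one_le_pow₀ hLL1
      have a2 : 0 ≤ C₁ * W := by positivity
      calc C₁ * Real.log T * (T * N2 N r) = C₁ * W := by rw [hW]; ring
        _ ≤ C₁ * W * LL ^ 2 := le_mul_of_one_le_right a2 a1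
        _ = _ := by ring
    have i2' : (LL ^ 2 + (1 + C₃) ^ 2 * LL ^ 2) * ∑ s ∈ ZI d T, ‖dp N r s.im‖ ^ 2 ≤ (1 + (1 + C₃) ^ 2) * LL ^ 2 * (2 * W) := by
      calc (LL ^ 2 + (1 + C₃) ^ 2 * LL ^ 2) * ∑ s ∈ ZI d T, ‖dp N r s.im‖ ^ 2
          ≤ (LL ^ 2 + (1 + C₃) ^ 2 * LL ^ 2) * (2 * (Real.log T * T) * N2 N r) :=
            mul_le_mul_of_nonneg_left i2 (by positivity)
        _ = _ := by rw [hW]; ring
    have i3' : 2 * C * LL * W ≤ 2 * C * LL ^ 2 * W := by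
      have a1 : LL ≤ LL ^ 2 := by nlinarith
      have a2 : 0 ≤ 2 * C * W := by positivity
      nlinarith
    calc _ ≤ 4 * (C₁ * LL ^ 2 * W + (1 + (1 + C₃) ^ 2) * LL ^ 2 * (2 * W) + 2 * C * LL ^ 2 * W) := by linarith
      _ = _ := by rw [hD]; ring

end Pool.Agent.U196.UM
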