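import Pool.Agent.Q97.UM.Base8
import Pool.Agent.Q98.UM.EXT
import Pool.Agent.Q198.UM.PRM
import Pool.Agent.Q241.UM.RES

set_option autoImplicit false

/-! The size of zeta on the critical line relative to every Dirichlet polynomial: preparations. -/

namespace Pool.Agent.U196.UM

open Filter Topology MeasureTheory Complex
open Pool.Agent.Q97.UM Pool.Agent.Q98.UM

/-- truncation of a sequence -/
def tr (N : ℕ) (b : ℕ → ℂ) (n : ℕ) : ℂ := if 1 ≤ n ∧ n ≤ N then b n else 0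

theorem dp_tr (N : ℕ) (b : ℕ → ℂ) (t : ℝ) : dp N (tr N b) t = dp N b t := by
  unfold dp tr
  refine Finset.sum_congr rfl fun n hn => ?_
  rw [if_pos (Finset.mem_Icc.mp hn)]

theorem N2_tr (N : ℕ) (b : ℕ → ℂ) : N2 N (tr N b) = N2 N b := by
  unfold N2 tr
  refine Finset.sum_congr rfl fun n hn => ?_
  rw [if_pos (Finset.mem_Icc.mp hn)]

theorem tr_supp (N : ℕ) (b : ℕ → ℂ) : ∀ n, tr N b n ≠ 0 → 1 ≤ n ∧ n ≤ N := by
  intro n h
  unfold tr at h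
  by_contra h1
  rw [if_neg h1] at h
  exact h rfl

/-- iterated convolution with `α` -/
def itc (α b : ℕ → ℂ) : ℕ → (ℕ → ℂ)
  | 0 => b
  | (i + 1) => cv α (itc α b i)

theorem itc_supp {X N : ℕ} {α b : ℕ → ℂ} (hα : ∀ n, α n ≠ 0 → 1 ≤ n ∧ n ≤ X) (hb : ∀ n, b n ≠ 0 → 1 ≤ n ∧ n ≤ N)
    (i : ℕ) : ∀ n, itc α b i n ≠ 0 → 1 ≤ n ∧ n ≤ X ^ i * N := by
  induction i with
  | zero => intro n hn; simpa using hb n hn
  | succ i ih =>
    have h := cv_supp hα ih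
    intro n hn
    have := h n hn
    refine ⟨this.1, this.2.trans (le_of_eq ?_)⟩
    rw [pow_succ]; ring

theorem itc_dp {X N : ℕ} {α b : ℕ → ℂ} (hα : ∀ n, α n ≠ 0 → 1 ≤ n ∧ n ≤ X) (hb : ∀ n, b n ≠ 0 → 1 ≤ n ∧ n ≤ N)
    (i : ℕ) (t : ℝ) : dp (X ^ i * N) (itc α b i) t = dp X α t ^ i * dp N b t := by
  induction i with
  | zero => simp [itc]
  | succ i ih =>
    have h1 := Pool.Agent.Q84.UM.t_DPM.1 X (X ^ i * N) α (itc α b i) t (supp_zero hα) (supp_zero (itc_supp hα hb i))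
    have h2 : X * (X ^ i * N) = X ^ (i + 1) * N := by rw [pow_succ]; ring
    rw [h2] at h1
    show dp (X ^ (i + 1) * N) (cv α (itc α b i)) t = _
    rw [← h1, ih, pow_succ]
    ring

theorem itc_N2 {C₀ : ℝ} (hC₀ : 1 ≤ C₀) (hP : ∀ (X M : ℕ) (A : ℝ) (α c : ℕ → ℂ), 2 ≤ X → 1 ≤ M → 0 ≤ A →
      (∀ n, α n ≠ 0 → n.Prime ∧ n ≤ X) → (∀ n, ‖α n‖ ≤ A * (Real.log n / Real.log X)) → (∀ n, M < n → c n = 0) →
      N2 (X * M) (cv α c) ≤ C₀ * A ^ 2 * (1 + Real.log M / Real.log X) * N2 M c)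
    {X N : ℕ} {A : ℝ} {α b : ℕ → ℂ} (hX : 2 ≤ X) (hN : 1 ≤ N) (hA : 0 ≤ A)
    (hα : ∀ n, α n ≠ 0 → n.Prime ∧ n ≤ X) (hα2 : ∀ n, ‖α n‖ ≤ A * (Real.log n / Real.log X))
    (hb : ∀ n, b n ≠ 0 → 1 ≤ n ∧ n ≤ N) (m : ℕ) (i : ℕ) (hi : i ≤ m) :
    N2 (X ^ i * N) (itc α b i) ≤ (C₀ * A ^ 2 * (1 + m + Real.log N / Real.log X)) ^ i * N2 N b := by
  have hα' : ∀ n, α n ≠ 0 → 1 ≤ n ∧ n ≤ X := fun n h => ⟨(hα n h).1.one_lt.le, (hα n h).2⟩
  have hX0 : 0 < Real.log X := Real.log_pos (by exact_mod_cast (by omega : 1 < X))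
  have hN0 : 0 ≤ Real.log N := Real.log_nonneg (by exact_mod_cast hN)
  induction i with
  | zero => simp [itc]
  | succ i ih =>
    have h0 := ih (by omega)
    have hM : 1 ≤ X ^ i * N := Nat.mul_pos (pow_pos (by omega) _) hN
    have h1 := hP X (X ^ i * N) A α (itc α b i) hX hM hA hα hα2 (supp_zero (itc_supp hα' hb i))
    have h2 : X * (X ^ i * N) = X ^ (i + 1) * N := by rw [pow_succ]; ring
    rw [h2] at h1
    refine h1.trans ?_
    have hlog : Real.log ((X ^ i * N : ℕ) : ℝ) = i * Real.log X + Real.log N := by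
      push_cast
      rw [Real.log_mul (by positivity) (by exact_mod_cast (by omega : N ≠ 0)), Real.log_pow]
    have h3 : 1 + Real.log ((X ^ i * N : ℕ) : ℝ) / Real.log X ≤ 1 + m + Real.log N / Real.log X := by
      rw [hlog, add_div, mul_div_assoc, div_self hX0.ne', mul_one]
      have : (i : ℝ) ≤ m := by exact_mod_cast (by omega : i ≤ m)
      linarith
    have h4 : 0 ≤ C₀ * A ^ 2 := by positivity
    have h5 : 0 ≤ C₀ * A ^ 2 * (1 + m + Real.log N / Real.log X) := by positivity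
    calc C₀ * A ^ 2 * (1 + Real.log ((X ^ i * N : ℕ) : ℝ) / Real.log X) * N2 (X ^ i * N) (itc α b i)
        ≤ C₀ * A ^ 2 * (1 + m + Real.log N / Real.log X) *
          ((C₀ * A ^ 2 * (1 + m + Real.log N / Real.log X)) ^ i * N2 N b) :=
          mul_le_mul (mul_le_mul_of_nonneg_left h3 h4) h0 (Pool.Agent.Q98.UM.N2_nonneg _ _) h5
      _ = _ := by rw [pow_succ]; ring

/-- the moments of a dyadic block of the prime sum, against every Dirichlet polynomial -/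
theorem block_bound : ∃ C₀ : ℝ, 1 ≤ C₀ ∧ ∀ (m : ℕ) (T : ℝ) (X N : ℕ) (α b : ℕ → ℂ), 16 ≤ T → 2 ≤ X → 1 ≤ N →
    ((X ^ m * N : ℕ) : ℝ) ≤ T ^ (1 / 4 : ℝ) →
    (∀ n, α n ≠ 0 → n.Prime ∧ n ≤ X) → (∀ n, ‖α n‖ ≤ 2 * (Real.log n / Real.log X)) →
    (∀ n, b n ≠ 0 → 1 ≤ n ∧ n ≤ N) →
    ∫ t in T..(2 * T), ‖dp X α t‖ ^ (2 * m) * ‖dp N b t‖ ^ 2 ≤
      2 * T * ((C₀ * (1 + m + Real.log N / Real.log X)) ^ m * N2 N b) := by
  obtain ⟨C₁, hC₁, hP⟩ := Pool.Agent.Q198.UM.t_PRM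
  refine ⟨C₁ * 2 ^ 2, by nlinarith, ?_⟩
  intro m T X N α b hT hX hN hlen hα hα2 hb
  have hα' : ∀ n, α n ≠ 0 → 1 ≤ n ∧ n ≤ X := fun n h => ⟨(hα n h).1.one_lt.le, (hα n h).2⟩
  have h1 := (Pool.Agent.Q84.UM.t_MVL T hT (X ^ m * N) hlen (itc α b m)).2
  have h2 := itc_N2 hC₁ hP hX hN (by norm_num : (0:ℝ) ≤ 2) hα hα2 hb m m le_rfl
  have h3 : ∫ t in T..(2 * T), ‖dp X α t‖ ^ (2 * m) * ‖dp N b t‖ ^ 2 =
      ∫ t in T..(2 * T), ‖dp (X ^ m * N) (itc α b m) t‖ ^ 2 := by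
    congr 1
    funext t
    rw [itc_dp hα' hb m t, norm_mul, norm_pow, mul_pow, ← pow_mul, mul_comm m 2]
  rw [h3]
  refine h1.trans ?_
  exact mul_le_mul_of_nonneg_left h2 (by linarith)

/-- weighted power mean -/
theorem weighted_pow {ι : Type} (s : Finset ι) (w x : ι → ℝ) (hw : ∀ i ∈ s, 0 < w i) (hx : ∀ i ∈ s, 0 ≤ x i) (n : ℕ) :
    (∑ i ∈ s, x i) ^ (n + 1) ≤ (∑ i ∈ s, w i) ^ n * ∑ i ∈ s, w i * (x i / w i) ^ (n + 1) := by
  rcases s.eq_empty_or_nonempty with h | h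
  · subst h; simp
  have hW : 0 < ∑ i ∈ s, w i := Finset.sum_pos hw h
  set W := ∑ i ∈ s, w i with hWd
  have h1 := Real.pow_arith_mean_le_arith_mean_pow s (fun i => w i / W) (fun i => W * (x i / w i))
    (fun i hi => (div_pos (hw i hi) hW).le) (by rw [← Finset.sum_div, div_self hW.ne'])
    (fun i hi => mul_nonneg hW.le (div_nonneg (hx i hi) (hw i hi).le)) (n + 1)
  have h2 : ∑ i ∈ s, w i / W * (W * (x i / w i)) = ∑ i ∈ s, x i := by
    refine Finset.sum_congr rfl fun i hi => ?_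
    have := (hw i hi).ne'
    field_simp
  have h3 : ∑ i ∈ s, w i / W * (W * (x i / w i)) ^ (n + 1) = W ^ n * ∑ i ∈ s, w i * (x i / w i) ^ (n + 1) := by
    rw [Finset.mul_sum]
    refine Finset.sum_congr rfl fun i hi => ?_
    have := (hw i hi).ne'
    rw [mul_pow, pow_succ W n]
    field_simp
  rw [h2, h3] at h1
  exact h1

theorem geom_bound (J : ℕ) : ∑ j ∈ Finset.range J, (Real.sqrt 2) ^ j ≤ 3 * (Real.sqrt 2) ^ J := by
  have h2 : (1.4 : ℝ) ≤ Real.sqrt 2 := Real.le_sqrt_of_sq_le (by norm_num)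
  induction J with
  | zero => simp
  | succ J ih =>
    rw [Finset.sum_range_succ, pow_succ]
    have : 0 < (Real.sqrt 2) ^ J := by positivity
    nlinarith

end Pool.Agent.U196.UM
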