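import Pool.Agent.U196.UM.Mass

set_option autoImplicit false

/-! The size of zeta on the critical line relative to every Dirichlet polynomial: the prime sum. -/

namespace Pool.Agent.U196.UM

open Filter Topology MeasureTheory Complex
open Pool.Agent.Q97.UM Pool.Agent.Q98.UM

/-- the indicator function of the primes in `(Y, X]` -/
def blk (Y X n : ℕ) : ℂ := if n.Prime ∧ Y < n ∧ n ≤ X then 1 else 0

theorem prc_split {Y X : ℕ} (h : Y ≤ X) (t : ℝ) : dp X (prc X) t = dp X (blk Y X) t + dp Y (prc Y) t := by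
  unfold dp
  have h1 : ∑ n ∈ Finset.Icc 1 Y, prc Y n * (n : ℂ) ^ (-(1 / 2 + t * I)) =
      ∑ n ∈ Finset.Icc 1 X, (if n ≤ Y then prc Y n else 0) * (n : ℂ) ^ (-(1 / 2 + t * I)) := by
    have hsub : Finset.Icc 1 Y ⊆ Finset.Icc 1 X := Finset.Icc_subset_Icc_right h
    rw [← Finset.sum_subset hsub]
    · refine Finset.sum_congr rfl fun n hn => ?_
      rw [if_pos (Finset.mem_Icc.mp hn).2]
    · intro n hn hn'
      rw [Finset.mem_Icc] at hn hn'
      rw [if_neg (fun h => hn' ⟨hn.1, h⟩), zero_mul]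
  rw [h1, ← Finset.sum_add_distrib]
  refine Finset.sum_congr rfl fun n hn => ?_
  rw [← add_mul]
  congr 1
  have hn2 := (Finset.mem_Icc.mp hn).2
  unfold prc blk
  by_cases hp : n.Prime
  · by_cases hY : n ≤ Y
    · have : ¬ Y < n := by omega
      simp [hp, hY, hn2, this]
    · have : Y < n := by omega
      simp [hp, hY, hn2, this]
  · simp [hp]

theorem norm_prc_le (Y : ℕ) (t : ℝ) : ‖dp Y (prc Y) t‖ ≤ Y := by
  unfold dp
  refine (norm_sum_le _ _).trans ?_
  have : ∀ n ∈ Finset.Icc 1 Y, ‖prc Y n * (n : ℂ) ^ (-(1 / 2 + t * I))‖ ≤ 1 := by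
    intro n hn
    have hn1 := (Finset.mem_Icc.mp hn).1
    have hn0 : (1 : ℝ) ≤ n := by exact_mod_cast hn1
    rw [norm_mul]
    have h1 : ‖prc Y n‖ ≤ 1 := by unfold prc; split_ifs <;> simp
    have h2 : ‖(n : ℂ) ^ (-(1 / 2 + t * I))‖ ≤ 1 := by
      rw [Complex.norm_natCast_cpow_of_pos (by omega)]
      have : (-(1 / 2 + t * I) : ℂ).re = -(1 / 2) := by simp
      rw [this]
      exact Real.rpow_le_one_of_one_le_of_nonpos hn0 (by norm_num)
    nlinarith [norm_nonneg (prc Y n), norm_nonneg ((n : ℂ) ^ (-(1 / 2 + t * I)))]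
  refine (Finset.sum_le_sum this).trans ?_
  simp

/-- the thresholds -/
noncomputable def yy (δ T : ℝ) (j : ℕ) : ℝ := T ^ (δ / 2 ^ j)

theorem yy_log {δ T : ℝ} (hT : 0 < T) (j : ℕ) : Real.log (yy δ T j) = δ / 2 ^ j * Real.log T := by
  unfold yy; rw [Real.log_rpow hT]

theorem yy_anti {δ T : ℝ} (hδ : 0 < δ) (hT : 1 ≤ T) (j : ℕ) : yy δ T (j + 1) ≤ yy δ T j := by
  unfold yy
  refine Real.rpow_le_rpow_of_exponent_le hT ?_
  rw [pow_succ]
  have : (0:ℝ) < 2 ^ j := by positivity
  rw [div_le_div_iff₀ (by positivity) this]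
  nlinarith

theorem telescoping {δ T : ℝ} (hδ : 0 < δ) (hT : 1 ≤ T) (J : ℕ) (t : ℝ) :
    dp ⌊yy δ T 0⌋₊ (prc ⌊yy δ T 0⌋₊) t =
      (∑ j ∈ Finset.range J, dp ⌊yy δ T j⌋₊ (blk ⌊yy δ T (j + 1)⌋₊ ⌊yy δ T j⌋₊) t) +
        dp ⌊yy δ T J⌋₊ (prc ⌊yy δ T J⌋₊) t := by
  induction J with
  | zero => simp
  | succ J ih =>
    rw [ih, Finset.sum_range_succ, prc_split (Nat.floor_le_floor (yy_anti hδ hT J)) t]
    ring

/-- growth facts -/
theorem growth1 (δ : ℝ) (hδ : 0 < δ) : ∀ᶠ T : ℝ in atTop, 16 ≤ T ∧ 1 ≤ Real.log (Real.log T) ∧ 16 ≤ Real.log T ∧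
    1 ≤ 4 * δ * Real.log T / Real.log (Real.log T) ∧ 2 ≤ Real.log (Real.log T) / 4 ∧
    Real.log (Real.log T) ≤ Real.log T := by
  have h1 : Tendsto (fun T : ℝ => Real.log T) atTop atTop := Real.tendsto_log_atTop
  have h2 : Tendsto (fun T : ℝ => Real.log (Real.log T)) atTop atTop := h1.comp h1
  have h3 : ∀ᶠ x : ℝ in atTop, Real.log x ≤ 4 * δ * x := by
    have := (Real.isLittleO_log_id_atTop.bound (show (0:ℝ) < 4 * δ by positivity))
    filter_upwards [this, eventually_ge_atTop 1] with x hx hx1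
    simp only [id, Real.norm_eq_abs] at hx
    rw [abs_of_nonneg (Real.log_nonneg hx1), abs_of_pos (by linarith : 0 < x)] at hx
    exact hx
  filter_upwards [eventually_ge_atTop 16, h2.eventually_ge_atTop 8, h1.eventually_ge_atTop 16, h1.eventually h3] with
    T a1 a2 a3 a4
  refine ⟨a1, by linarith, a3, ?_, by linarith, ?_⟩
  · rw [le_div_iff₀ (by linarith), one_mul]; exact a4
  · have := Real.log_le_sub_one_of_pos (show 0 < Real.log T by linarith)
    linarith

/-- the decomposition of the prime sum, and the moments of the main part relative to every Dirichlet polynomial -/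
theorem big (m : ℕ) {δ : ℝ} (hδ : 0 < δ) (hδ1 : (m + 1) * δ ≤ 1 / 16) : ∃ C : ℝ, 0 < C ∧ ∀ᶠ T : ℝ in atTop,
    ∃ F G : ℝ → ℂ, Continuous F ∧ Continuous G ∧ (∀ t, dp ⌊T ^ δ⌋₊ (prc ⌊T ^ δ⌋₊) t = F t + G t) ∧
      (∀ t, ‖G t‖ ≤ Real.log T ^ (1 / 4 : ℝ)) ∧
      ∀ N : ℕ, 1 ≤ N → (N : ℝ) ≤ T ^ (1 / 16 : ℝ) → ∀ b : ℕ → ℂ, (∀ n, b n ≠ 0 → 1 ≤ n ∧ n ≤ N) →
        ∫ t in T..(2 * T), ‖F t‖ ^ (2 * (m + 1)) * ‖dp N b t‖ ^ 2 ≤
          C * T * (Real.log T / Real.log (Real.log T)) ^ (m + 1) * N2 N b := by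
  obtain ⟨C₀, hC₀, hblock⟩ := block_bound
  have hδ2 : δ ≤ 1 / 16 := by
    have : (0:ℝ) ≤ m := Nat.cast_nonneg m
    nlinarith
  set K₁ : ℝ := C₀ * (m + 4) / δ with hK₁
  have hK₁0 : 0 < K₁ := by positivity
  refine ⟨2 * K₁ ^ (m + 1) * (9 * (8 * δ)) ^ (m + 1), by positivity, ?_⟩
  filter_upwards [growth1 δ hδ] with T hT
  obtain ⟨hT16, hLL1, hL16, hQ1, hLL2, hLLL⟩ := hT
  set L := Real.log T with hL
  set LL := Real.log L with hLLd
  have hT0 : 0 < T := by linarith
  have hL0 : 0 < L := by linarith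
  have hLL0 : 0 < LL := by linarith
  set Q : ℝ := 4 * δ * L / LL with hQ
  have hQ0 : 0 < Q := by positivity
  -- the number of blocks
  set J : ℕ := ⌈Real.logb 2 Q⌉₊ with hJ
  have hJ1 : Q ≤ 2 ^ J := by
    have h1 : Real.logb 2 Q ≤ J := Nat.le_ceil _
    have h2 : Q = (2:ℝ) ^ Real.logb 2 Q := (Real.rpow_logb (by norm_num) (by norm_num) hQ0).symm
    rw [h2, ← Real.rpow_natCast]
    exact Real.rpow_le_rpow_of_exponent_le (by norm_num) h1
  have hJ2 : (2:ℝ) ^ J ≤ 2 * Q := by
    have h0 : 0 ≤ Real.logb 2 Q := Real.logb_nonneg (by norm_num) hQ1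
    have h1 : (J : ℝ) ≤ Real.logb 2 Q + 1 := (Nat.ceil_lt_add_one h0).le
    have h2 : Q = (2:ℝ) ^ Real.logb 2 Q := (Real.rpow_logb (by norm_num) (by norm_num) hQ0).symm
    calc (2:ℝ) ^ J = (2:ℝ) ^ (J : ℝ) := (Real.rpow_natCast _ _).symm
      _ ≤ (2:ℝ) ^ (Real.logb 2 Q + 1) := Real.rpow_le_rpow_of_exponent_le (by norm_num) h1
      _ = 2 * Q := by
        rw [Real.rpow_add (by norm_num), Real.rpow_one, ← h2]
        ring
  have hJ3 : ∀ j < J, (2:ℝ) ^ j < Q := by
    intro j hj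
    have h1 : (j : ℝ) < Real.logb 2 Q := by
      rw [hJ, Nat.lt_ceil] at hj
      exact hj
    have h2 : Q = (2:ℝ) ^ Real.logb 2 Q := (Real.rpow_logb (by norm_num) (by norm_num) hQ0).symm
    rw [h2, ← Real.rpow_natCast]
    exact Real.rpow_lt_rpow_of_exponent_lt (by norm_num) h1
  have hy0 : yy δ T 0 = T ^ δ := by unfold yy; simp
  refine ⟨fun t => ∑ j ∈ Finset.range J, dp ⌊yy δ T j⌋₊ (blk ⌊yy δ T (j + 1)⌋₊ ⌊yy δ T j⌋₊) t,
    fun t => dp ⌊yy δ T J⌋₊ (prc ⌊yy δ T J⌋₊) t, ?_, ?_, ?_, ?_, ?_⟩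
  · exact continuous_finsetSum _ fun j _ => (Pool.Agent.Q84.UM.t_DPM.2.2 _ _ 0).2
  · exact (Pool.Agent.Q84.UM.t_DPM.2.2 _ _ 0).2
  · intro t
    have := telescoping hδ (by linarith) J t (T := T)
    rw [hy0] at this
    exact this
  · intro t
    refine (norm_prc_le _ t).trans ((Nat.floor_le (by unfold yy; positivity)).trans ?_)
    unfold yy
    have h1 : δ / 2 ^ J * L ≤ 1 / 4 * LL := by
      have h2 : δ / 2 ^ J ≤ δ / Q := div_le_div_of_nonneg_left hδ.le hQ0 hJ1
      calc δ / 2 ^ J * L ≤ δ / Q * L := mul_le_mul_of_nonneg_right h2 hL0.le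
        _ = 1 / 4 * LL := by rw [hQ]; field_simp
    calc T ^ (δ / 2 ^ J) = Real.exp (L * (δ / 2 ^ J)) := by rw [Real.rpow_def_of_pos hT0]
      _ ≤ Real.exp (LL * (1 / 4)) := by
        apply Real.exp_le_exp.mpr; linarith
      _ = L ^ (1 / 4 : ℝ) := by rw [Real.rpow_def_of_pos hL0]
  · intro N hN hNT b hb
    -- one block
    have hone : ∀ j ∈ Finset.range J, ∫ t in T..(2 * T),
        ‖dp ⌊yy δ T j⌋₊ (blk ⌊yy δ T (j + 1)⌋₊ ⌊yy δ T j⌋₊) t‖ ^ (2 * (m + 1)) * ‖dp N b t‖ ^ 2 ≤
        2 * T * ((K₁ * 2 ^ j) ^ (m + 1) * N2 N b) := by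
      intro j hj
      rw [Finset.mem_range] at hj
      set y := yy δ T j with hy
      set y' := yy δ T (j + 1) with hy'
      have hlogy : Real.log y = δ / 2 ^ j * L := yy_log hT0 j
      have hlogy' : Real.log y' = δ / 2 ^ (j + 1) * L := yy_log hT0 (j + 1)
      have hhalf : Real.log y' = Real.log y / 2 := by
        rw [hlogy, hlogy', pow_succ]; field_simp
      have hypos : 0 < y := by rw [hy]; unfold yy; positivity
      have hypos' : 0 < y' := by rw [hy']; unfold yy; positivity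
      have hylarge : LL / 4 ≤ Real.log y := by
        rw [hlogy]
        have h1 := (hJ3 j hj).le
        have h2 : δ / Q ≤ δ / 2 ^ j := div_le_div_of_nonneg_left hδ.le (by positivity) h1
        calc LL / 4 = δ / Q * L := by rw [hQ]; field_simp
          _ ≤ _ := mul_le_mul_of_nonneg_right h2 hL0.le
      have hy2 : 2 ≤ Real.log y := by linarith
      have hy7 : 7 ≤ y := by
        have h1 : Real.exp 2 ≤ y := by
          rw [← Real.exp_log hypos]; exact Real.exp_le_exp.mpr hy2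
        have h2 : (7:ℝ) ≤ Real.exp 2 := by
          have h3 := Real.exp_one_gt_d9
          have h4 : Real.exp 2 = Real.exp 1 * Real.exp 1 := by rw [← Real.exp_add]; norm_num
          rw [h4]; nlinarith
        linarith
      set X := ⌊y⌋₊ with hX
      have hXy : (X : ℝ) ≤ y := Nat.floor_le hypos.le
      have hXy2 : y - 1 ≤ X := (Nat.sub_one_lt_floor y).le
      have hX2 : 2 ≤ X := by
        have : (2:ℝ) ≤ X := by linarith
        exact_mod_cast this
      have hX0 : (0:ℝ) < X := by linarith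
      have hlogX : Real.log X ≤ Real.log y := Real.log_le_log hX0 hXy
      have hlogX2 : Real.log y / 2 ≤ Real.log X := by
        have h1 : y ≤ X ^ 2 := by nlinarith
        have h2 := Real.log_le_log hypos h1
        rw [Real.log_pow] at h2
        push_cast at h2
        linarith
      have hlogX0 : 0 < Real.log X := by linarith
      -- length
      have hlen : ((X ^ (m + 1) * N : ℕ) : ℝ) ≤ T ^ (1 / 4 : ℝ) := by
        push_cast
        have h1 : (X : ℝ) ≤ T ^ δ := by
          refine hXy.trans ?_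
          rw [hy]; unfold yy
          refine Real.rpow_le_rpow_of_exponent_le (by linarith) ?_
          exact div_le_self hδ.le (one_le_pow₀ (by norm_num))
        have h2 : (X : ℝ) ^ (m + 1) ≤ T ^ (1 / 16 : ℝ) := by
          calc (X : ℝ) ^ (m + 1) ≤ (T ^ δ) ^ (m + 1) := pow_le_pow_left₀ hX0.le h1 _
            _ = T ^ (δ * ((m + 1 : ℕ) : ℝ)) := by rw [← Real.rpow_natCast, ← Real.rpow_mul hT0.le]
            _ ≤ _ := by
              refine Real.rpow_le_rpow_of_exponent_le (by linarith) ?_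
              push_cast
              linarith
        calc (X : ℝ) ^ (m + 1) * N ≤ T ^ (1 / 16 : ℝ) * T ^ (1 / 16 : ℝ) :=
              mul_le_mul h2 hNT (by positivity) (by positivity)
          _ = T ^ (1 / 8 : ℝ) := by rw [← Real.rpow_add hT0]; norm_num
          _ ≤ _ := Real.rpow_le_rpow_of_exponent_le (by linarith) (by norm_num)
      have hα : ∀ n, blk ⌊y'⌋₊ X n ≠ 0 → n.Prime ∧ n ≤ X := by
        intro n hn
        unfold blk at hn
        by_contra h
        apply hn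
        rw [if_neg]
        rintro ⟨h1, _, h3⟩
        exact h ⟨h1, h3⟩
      have hα2 : ∀ n, ‖blk ⌊y'⌋₊ X n‖ ≤ 2 * (Real.log n / Real.log X) := by
        intro n
        unfold blk
        split_ifs with h
        · have h1 : y' < n := by
            have := (Nat.floor_lt hypos'.le).mp h.2.1
            exact this
          have h2 : Real.log y' ≤ Real.log n := Real.log_le_log hypos' h1.le
          rw [norm_one, ← mul_div_assoc, le_div_iff₀ hlogX0]
          linarith
        · rw [norm_zero]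
          have : 0 ≤ Real.log (n : ℝ) := Real.log_natCast_nonneg n
          positivity
      have h1 := hblock (m + 1) T X N (blk ⌊y'⌋₊ X) b hT16 hX2 hN hlen hα hα2 hb
      refine h1.trans ?_
      have hN2 : 0 ≤ N2 N b := Pool.Agent.Q98.UM.N2_nonneg _ _
      have h2 : C₀ * (1 + ((m + 1 : ℕ) : ℝ) + Real.log N / Real.log X) ≤ K₁ * 2 ^ j := by
        have h3 : Real.log N ≤ L := by
          have h4 : Real.log N ≤ Real.log (T ^ (1 / 16 : ℝ)) :=
            Real.log_le_log (by exact_mod_cast hN) hNT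
          rw [Real.log_rpow hT0] at h4
          linarith
        have h5 : Real.log N / Real.log X ≤ 2 * (2 ^ j / δ) := by
          rw [div_le_iff₀ hlogX0]
          calc Real.log N ≤ L := h3
            _ = 2 * (2 ^ j / δ) * (δ / 2 ^ j * L / 2) := by field_simp
            _ ≤ _ := by
              refine mul_le_mul_of_nonneg_left ?_ (by positivity)
              rw [← hlogy]; exact hlogX2
        have h6 : (1:ℝ) ≤ 2 ^ j / δ := by
          rw [le_div_iff₀ hδ]
          have : (1:ℝ) ≤ 2 ^ j := one_le_pow₀ (by norm_num)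
          linarith
        have h7 : (0:ℝ) ≤ m := Nat.cast_nonneg m
        push_cast
        calc C₀ * (1 + ((m:ℝ) + 1) + Real.log N / Real.log X) ≤ C₀ * ((m + 2) * (2 ^ j / δ) + 2 * (2 ^ j / δ)) := by
              refine mul_le_mul_of_nonneg_left ?_ (by linarith)
              nlinarith
          _ = K₁ * 2 ^ j := by rw [hK₁]; ring
      have h8 : 0 ≤ C₀ * (1 + ((m + 1 : ℕ) : ℝ) + Real.log N / Real.log X) := by
        have : 0 ≤ Real.log (N:ℝ) := Real.log_natCast_nonneg N
        positivity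
      refine mul_le_mul_of_nonneg_left ?_ (by linarith)
      exact mul_le_mul_of_nonneg_right (pow_le_pow_left₀ h8 h2 _) hN2
    -- the sum of the blocks
    set D : ℕ → ℝ → ℂ := fun j t => dp ⌊yy δ T j⌋₊ (blk ⌊yy δ T (j + 1)⌋₊ ⌊yy δ T j⌋₊) t with hD
    have hDc : ∀ j, Continuous (D j) := fun j => (Pool.Agent.Q84.UM.t_DPM.2.2 _ _ 0).2
    have hBc : Continuous (dp N b) := (Pool.Agent.Q84.UM.t_DPM.2.2 _ _ 0).2
    set w : ℕ → ℝ := fun j => (Real.sqrt 2) ^ j with hw
    have hw0 : ∀ j, 0 < w j := fun j => by rw [hw]; positivity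
    set W : ℝ := ∑ j ∈ Finset.range J, w j with hW
    have hW0 : 0 ≤ W := Finset.sum_nonneg fun j _ => (hw0 j).le
    have hpt : ∀ t, ‖∑ j ∈ Finset.range J, D j t‖ ^ (2 * (m + 1)) * ‖dp N b t‖ ^ 2 ≤
        W ^ (2 * m + 1) * ∑ j ∈ Finset.range J, w j * ((w j ^ (2 * (m + 1)))⁻¹ * (‖D j t‖ ^ (2 * (m + 1)) * ‖dp N b t‖ ^ 2)) := by
      intro t
      have h1 : ‖∑ j ∈ Finset.range J, D j t‖ ≤ ∑ j ∈ Finset.range J, ‖D j t‖ := norm_sum_le _ _
      have h2 := weighted_pow (Finset.range J) w (fun j => ‖D j t‖) (fun j _ => hw0 j) (fun j _ => norm_nonneg _) (2 * m + 1)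
      have e : 2 * m + 1 + 1 = 2 * (m + 1) := by ring
      rw [e] at h2
      calc ‖∑ j ∈ Finset.range J, D j t‖ ^ (2 * (m + 1)) * ‖dp N b t‖ ^ 2 ≤
            (∑ j ∈ Finset.range J, ‖D j t‖) ^ (2 * (m + 1)) * ‖dp N b t‖ ^ 2 :=
            mul_le_mul_of_nonneg_right (pow_le_pow_left₀ (norm_nonneg _) h1 _) (by positivity)
        _ ≤ (W ^ (2 * m + 1) * ∑ j ∈ Finset.range J, w j * (‖D j t‖ / w j) ^ (2 * (m + 1))) * ‖dp N b t‖ ^ 2 :=
            mul_le_mul_of_nonneg_right h2 (by positivity)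
        _ = _ := by
          rw [mul_assoc, Finset.sum_mul]
          congr 1
          refine Finset.sum_congr rfl fun j _ => ?_
          rw [div_pow]
          ring
    have hint : ∀ f : ℝ → ℝ, Continuous f → IntervalIntegrable f volume T (2 * T) := fun f hf => hf.intervalIntegrable _ _
    have hT2 : T ≤ 2 * T := by linarith
    have hFc : Continuous fun t => ‖∑ j ∈ Finset.range J, D j t‖ ^ (2 * (m + 1)) * ‖dp N b t‖ ^ 2 := by
      have : Continuous fun t => ∑ j ∈ Finset.range J, D j t := continuous_finsetSum _ fun j _ => hDc j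
      fun_prop
    have hGc : ∀ j, Continuous fun t => ‖D j t‖ ^ (2 * (m + 1)) * ‖dp N b t‖ ^ 2 := by
      intro j
      have := hDc j
      fun_prop
    calc ∫ t in T..(2 * T), ‖∑ j ∈ Finset.range J, D j t‖ ^ (2 * (m + 1)) * ‖dp N b t‖ ^ 2
        ≤ ∫ t in T..(2 * T), W ^ (2 * m + 1) * ∑ j ∈ Finset.range J, w j * ((w j ^ (2 * (m + 1)))⁻¹ *
            (‖D j t‖ ^ (2 * (m + 1)) * ‖dp N b t‖ ^ 2)) := by
          refine intervalIntegral.integral_mono_on hT2 (hint _ hFc) (hint _ ?_) fun t _ => hpt t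
          refine continuous_const.mul (continuous_finsetSum _ fun j _ => ?_)
          exact continuous_const.mul (continuous_const.mul (hGc j))
      _ = W ^ (2 * m + 1) * ∑ j ∈ Finset.range J, w j * ((w j ^ (2 * (m + 1)))⁻¹ *
            ∫ t in T..(2 * T), ‖D j t‖ ^ (2 * (m + 1)) * ‖dp N b t‖ ^ 2) := by
          rw [intervalIntegral.integral_const_mul, intervalIntegral.integral_finsetSum]
          · congr 1
            refine Finset.sum_congr rfl fun j _ => ?_
            rw [intervalIntegral.integral_const_mul, intervalIntegral.integral_const_mul]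
          · intro j _
            exact hint _ (continuous_const.mul (continuous_const.mul (hGc j)))
      _ ≤ W ^ (2 * m + 1) * ∑ j ∈ Finset.range J, w j * (2 * T * K₁ ^ (m + 1) * N2 N b) := by
          refine mul_le_mul_of_nonneg_left (Finset.sum_le_sum fun j hj => ?_) (by positivity)
          refine mul_le_mul_of_nonneg_left ?_ (hw0 j).le
          rw [inv_mul_le_iff₀ (by have := hw0 j; positivity)]
          refine (hone j hj).trans (le_of_eq ?_)
          have : w j ^ (2 * (m + 1)) = ((2:ℝ) ^ j) ^ (m + 1) := by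
            rw [hw]
            simp only
            rw [← pow_mul, ← pow_mul, show j * (2 * (m + 1)) = 2 * (j * (m + 1)) by ring, pow_mul,
              Real.sq_sqrt (by norm_num)]
          rw [this, mul_pow]
          ring
      _ = 2 * T * K₁ ^ (m + 1) * N2 N b * W ^ (2 * (m + 1)) := by
          rw [← Finset.sum_mul, ← hW]
          ring
      _ ≤ 2 * T * K₁ ^ (m + 1) * N2 N b * (9 * (2 * Q)) ^ (m + 1) := by
          have hN2 : 0 ≤ N2 N b := Pool.Agent.Q98.UM.N2_nonneg _ _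
          refine mul_le_mul_of_nonneg_left ?_ (by positivity)
          have h1 : W ≤ 3 * (Real.sqrt 2) ^ J := geom_bound J
          have h2 : W ^ 2 ≤ 9 * (2 * Q) := by
            calc W ^ 2 ≤ (3 * (Real.sqrt 2) ^ J) ^ 2 := pow_le_pow_left₀ hW0 h1 2
              _ = 9 * 2 ^ J := by
                rw [mul_pow, ← pow_mul, mul_comm J 2, pow_mul, Real.sq_sqrt (by norm_num)]
                norm_num
              _ ≤ _ := by linarith
          rw [pow_mul]
          exact pow_le_pow_left₀ (sq_nonneg W) h2 _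
      _ = _ := by
          rw [hQ]
          have : 9 * (2 * (4 * δ * L / LL)) = 9 * (8 * δ) * (L / LL) := by ring
          rw [this, mul_pow]
          ring

end Pool.Agent.U196.UM
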