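import Pool.Agent.U196.UM.Mass3

set_option autoImplicit false

/-! The prime sum at the zeros, relative to every Dirichlet polynomial. -/

namespace Pool.Agent.U196.UM

open Filter Topology MeasureTheory Complex
open Pool.Agent.Q97.UM Pool.Agent.Q98.UM

/-- the decomposition of the prime sum, and the second moment of the main part relative to every Dirichlet polynomial, for
sums over finite sets of points -/
theorem bigS {δ θ : ℝ} (hδ : 0 < δ) (hδθ : δ ≤ θ / 2) (hθ1 : θ ≤ 1) : ∃ C : ℝ, 0 < C ∧ ∀ᶠ T : ℝ in atTop,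
    ∃ F G : ℝ → ℂ, (∀ t, dp ⌊T ^ δ⌋₊ (prc ⌊T ^ δ⌋₊) t = F t + G t) ∧
      (∀ t, ‖G t‖ ≤ Real.log T ^ (1 / 4 : ℝ)) ∧
      ∀ (S : Finset ℂ) (v : ℂ → ℝ) (A : ℝ), 0 ≤ A → (∀ s ∈ S, 0 ≤ v s) →
        (∀ (M : ℕ) (c : ℕ → ℂ), (M : ℝ) ≤ T ^ θ → ∑ s ∈ S, v s * ‖dp M c s.im‖ ^ 2 ≤ A * N2 M c) →
      ∀ N : ℕ, 1 ≤ N → (N : ℝ) ≤ T ^ (θ / 2) → ∀ b : ℕ → ℂ, (∀ n, b n ≠ 0 → 1 ≤ n ∧ n ≤ N) →
        ∑ s ∈ S, v s * (‖F s.im‖ ^ 2 * ‖dp N b s.im‖ ^ 2) ≤
          C * (Real.log T / Real.log (Real.log T)) * (A * N2 N b) := by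
  obtain ⟨C₁, hC₁, hP⟩ := Pool.Agent.Q198.UM.t_PRM
  set K₁ : ℝ := C₁ * 4 * (1 + 2) / δ with hK₁
  have hK₁0 : 0 < K₁ := by positivity
  refine ⟨K₁ * (9 * (8 * δ)), by positivity, ?_⟩
  filter_upwards [growth1 δ hδ] with T hT
  obtain ⟨hT16, hLL1, hL16, hQ1, hLL2, hLLL⟩ := hT
  set L := Real.log T with hL
  set LL := Real.log L with hLLd
  have hT0 : 0 < T := by linarith
  have hL0 : 0 < L := by linarith
  have hLL0 : 0 < LL := by linarith
  set Q : ℝ := 4 * δ * L / LL with hQ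
  have hQ0 : 0 < Q := by positivity
  -- the number of blocks
  set J : ℕ := ⌈Real.logb 2 Q⌉₊ with hJ
  have hJ1 : Q ≤ 2 ^ J := by
    have h1 : Real.logb 2 Q ≤ J := Nat.le_ceil _
    have h2 : Q = (2:ℝ) ^ Real.logb 2 Q := (Real.rpow_logb (by norm_num) (by norm_num) hQ0).symm
    rw [h2, ← Real.rpow_natCast]
    exact Real.rpow_le_rpow_of_exponent_le (by norm_num) h1
  have hJ2 : (2:ℝ) ^ J ≤ 2 * Q := by
    have h0 : 0 ≤ Real.logb 2 Q := Real.logb_nonneg (by norm_num) hQ1
    have h1 : (J : ℝ) ≤ Real.logb 2 Q + 1 := (Nat.ceil_lt_add_one h0).le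
    have h2 : Q = (2:ℝ) ^ Real.logb 2 Q := (Real.rpow_logb (by norm_num) (by norm_num) hQ0).symm
    calc (2:ℝ) ^ J = (2:ℝ) ^ (J : ℝ) := (Real.rpow_natCast _ _).symm
      _ ≤ (2:ℝ) ^ (Real.logb 2 Q + 1) := Real.rpow_le_rpow_of_exponent_le (by norm_num) h1
      _ = 2 * Q := by
        rw [Real.rpow_add (by norm_num), Real.rpow_one, ← h2]
        ring
  have hJ3 : ∀ j < J, (2:ℝ) ^ j < Q := by
    intro j hj
    have h1 : (j : ℝ) < Real.logb 2 Q := by
      rw [hJ, Nat.lt_ceil] at hj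
      exact hj
    have h2 : Q = (2:ℝ) ^ Real.logb 2 Q := (Real.rpow_logb (by norm_num) (by norm_num) hQ0).symm
    rw [h2, ← Real.rpow_natCast]
    exact Real.rpow_lt_rpow_of_exponent_lt (by norm_num) h1
  have hy0 : yy δ T 0 = T ^ δ := by unfold yy; simp
  refine ⟨fun t => ∑ j ∈ Finset.range J, dp ⌊yy δ T j⌋₊ (blk ⌊yy δ T (j + 1)⌋₊ ⌊yy δ T j⌋₊) t,
    fun t => dp ⌊yy δ T J⌋₊ (prc ⌊yy δ T J⌋₊) t, ?_, ?_, ?_⟩
  · intro t
    have := telescoping hδ (by linarith) J t (T := T)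
    rw [hy0] at this
    exact this
  · intro t
    refine (norm_prc_le _ t).trans ((Nat.floor_le (by unfold yy; positivity)).trans ?_)
    unfold yy
    have h1 : δ / 2 ^ J * L ≤ 1 / 4 * LL := by
      have h2 : δ / 2 ^ J ≤ δ / Q := div_le_div_of_nonneg_left hδ.le hQ0 hJ1
      calc δ / 2 ^ J * L ≤ δ / Q * L := mul_le_mul_of_nonneg_right h2 hL0.le
        _ = 1 / 4 * LL := by rw [hQ]; field_simp
    calc T ^ (δ / 2 ^ J) = Real.exp (L * (δ / 2 ^ J)) := by rw [Real.rpow_def_of_pos hT0]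
      _ ≤ Real.exp (LL * (1 / 4)) := by
        apply Real.exp_le_exp.mpr; linarith
      _ = L ^ (1 / 4 : ℝ) := by rw [Real.rpow_def_of_pos hL0]
  · intro S v A hA hv hH N hN hNT b hb
    -- one block
    have hone : ∀ j ∈ Finset.range J, ∑ s ∈ S, v s *
        (‖dp ⌊yy δ T j⌋₊ (blk ⌊yy δ T (j + 1)⌋₊ ⌊yy δ T j⌋₊) s.im‖ ^ 2 * ‖dp N b s.im‖ ^ 2) ≤
        K₁ * 2 ^ j * (A * N2 N b) := by
      intro j hj
      rw [Finset.mem_range] at hj
      set y := yy δ T j with hy
      set y' := yy δ T (j + 1) with hy'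
      have hlogy : Real.log y = δ / 2 ^ j * L := yy_log hT0 j
      have hlogy' : Real.log y' = δ / 2 ^ (j + 1) * L := yy_log hT0 (j + 1)
      have hhalf : Real.log y' = Real.log y / 2 := by
        rw [hlogy, hlogy', pow_succ]; field_simp
      have hypos : 0 < y := by rw [hy]; unfold yy; positivity
      have hypos' : 0 < y' := by rw [hy']; unfold yy; positivity
      have hylarge : LL / 4 ≤ Real.log y := by
        rw [hlogy]
        have h1 := (hJ3 j hj).le
        have h2 : δ / Q ≤ δ / 2 ^ j := div_le_div_of_nonneg_left hδ.le (by positivity) h1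
        calc LL / 4 = δ / Q * L := by rw [hQ]; field_simp
          _ ≤ _ := mul_le_mul_of_nonneg_right h2 hL0.le
      have hy2 : 2 ≤ Real.log y := by linarith
      have hy7 : 7 ≤ y := by
        have h1 : Real.exp 2 ≤ y := by
          rw [← Real.exp_log hypos]; exact Real.exp_le_exp.mpr hy2
        have h2 : (7:ℝ) ≤ Real.exp 2 := by
          have h3 := Real.exp_one_gt_d9
          have h4 : Real.exp 2 = Real.exp 1 * Real.exp 1 := by rw [← Real.exp_add]; norm_num
          rw [h4]; nlinarith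
        linarith
      set X := ⌊y⌋₊ with hX
      have hXy : (X : ℝ) ≤ y := Nat.floor_le hypos.le
      have hXy2 : y - 1 ≤ X := (Nat.sub_one_lt_floor y).le
      have hX2 : 2 ≤ X := by
        have : (2:ℝ) ≤ X := by linarith
        exact_mod_cast this
      have hX0 : (0:ℝ) < X := by linarith
      have hlogX : Real.log X ≤ Real.log y := Real.log_le_log hX0 hXy
      have hlogX2 : Real.log y / 2 ≤ Real.log X := by
        have h1 : y ≤ X ^ 2 := by nlinarith
        have h2 := Real.log_le_log hypos h1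
        rw [Real.log_pow] at h2
        push_cast at h2
        linarith
      have hlogX0 : 0 < Real.log X := by linarith
      -- length
      have hlen : ((X * N : ℕ) : ℝ) ≤ T ^ θ := by
        push_cast
        have h1 : (X : ℝ) ≤ T ^ (θ / 2) := by
          refine hXy.trans ?_
          rw [hy]; unfold yy
          refine Real.rpow_le_rpow_of_exponent_le (by linarith) ?_
          exact (div_le_self hδ.le (one_le_pow₀ (by norm_num))).trans hδθ
        calc (X : ℝ) * N ≤ T ^ (θ / 2) * T ^ (θ / 2) :=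
              mul_le_mul h1 hNT (by positivity) (by positivity)
          _ = T ^ θ := by rw [← Real.rpow_add hT0]; ring_nf
      have hα : ∀ n, blk ⌊y'⌋₊ X n ≠ 0 → n.Prime ∧ n ≤ X := by
        intro n hn
        unfold blk at hn
        by_contra h
        apply hn
        rw [if_neg]
        rintro ⟨h1, _, h3⟩
        exact h ⟨h1, h3⟩
      have hα2 : ∀ n, ‖blk ⌊y'⌋₊ X n‖ ≤ 2 * (Real.log n / Real.log X) := by
        intro n
        unfold blk
        split_ifs with h
        · have h1 : y' < n := by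
            have := (Nat.floor_lt hypos'.le).mp h.2.1
            exact this
          have h2 : Real.log y' ≤ Real.log n := Real.log_le_log hypos' h1.le
          rw [norm_one, ← mul_div_assoc, le_div_iff₀ hlogX0]
          linarith
        · rw [norm_zero]
          have : 0 ≤ Real.log (n : ℝ) := Real.log_natCast_nonneg n
          positivity
      have hα' : ∀ n, blk ⌊y'⌋₊ X n ≠ 0 → 1 ≤ n ∧ n ≤ X := fun n h => ⟨(hα n h).1.one_lt.le, (hα n h).2⟩
      have h1 := hP X N 2 (blk ⌊y'⌋₊ X) b hX2 hN (by norm_num) hα hα2 (supp_zero hb)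
      have h2 := hH (X * N) (cv (blk ⌊y'⌋₊ X) b) hlen
      have h3 : ∀ t, ‖dp X (blk ⌊y'⌋₊ X) t‖ ^ 2 * ‖dp N b t‖ ^ 2 = ‖dp (X * N) (cv (blk ⌊y'⌋₊ X) b) t‖ ^ 2 := by
        intro t
        rw [← Pool.Agent.Q84.UM.t_DPM.1 X N _ b t (supp_zero hα') (supp_zero hb), norm_mul, mul_pow]
      simp_rw [h3]
      refine h2.trans ?_
      have hN2 : 0 ≤ N2 N b := Pool.Agent.Q98.UM.N2_nonneg _ _
      have h4 : C₁ * 2 ^ 2 * (1 + Real.log N / Real.log X) ≤ K₁ * 2 ^ j := by
        have h3 : Real.log N ≤ L := by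
          have h4 : Real.log N ≤ Real.log (T ^ (θ / 2)) :=
            Real.log_le_log (by exact_mod_cast hN) hNT
          rw [Real.log_rpow hT0] at h4
          nlinarith
        have h5 : Real.log N / Real.log X ≤ 2 * (2 ^ j / δ) := by
          rw [div_le_iff₀ hlogX0]
          calc Real.log N ≤ L := h3
            _ = 2 * (2 ^ j / δ) * (δ / 2 ^ j * L / 2) := by field_simp
            _ ≤ _ := by
              refine mul_le_mul_of_nonneg_left ?_ (by positivity)
              rw [← hlogy]; exact hlogX2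
        have h6 : (1:ℝ) ≤ 2 ^ j / δ := by
          rw [le_div_iff₀ hδ]
          have : (1:ℝ) ≤ 2 ^ j := one_le_pow₀ (by norm_num)
          linarith
        calc C₁ * 2 ^ 2 * (1 + Real.log N / Real.log X) ≤ C₁ * 2 ^ 2 * ((2 ^ j / δ) + 2 * (2 ^ j / δ)) := by
              refine mul_le_mul_of_nonneg_left ?_ (by positivity)
              linarith
          _ = K₁ * 2 ^ j := by rw [hK₁]; ring
      calc A * N2 (X * N) (cv (blk ⌊y'⌋₊ X) b) ≤ A * (C₁ * 2 ^ 2 * (1 + Real.log N / Real.log X) * N2 N b) :=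
            mul_le_mul_of_nonneg_left h1 hA
        _ = C₁ * 2 ^ 2 * (1 + Real.log N / Real.log X) * (A * N2 N b) := by ring
        _ ≤ _ := mul_le_mul_of_nonneg_right h4 (by positivity)
    -- the sum of the blocks
    set D : ℕ → ℝ → ℂ := fun j t => dp ⌊yy δ T j⌋₊ (blk ⌊yy δ T (j + 1)⌋₊ ⌊yy δ T j⌋₊) t with hD
    set w : ℕ → ℝ := fun j => (Real.sqrt 2) ^ j with hw
    have hw0 : ∀ j, 0 < w j := fun j => by rw [hw]; positivity
    set W : ℝ := ∑ j ∈ Finset.range J, w j with hW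
    have hW0 : 0 ≤ W := Finset.sum_nonneg fun j _ => (hw0 j).le
    have hpt : ∀ t, ‖∑ j ∈ Finset.range J, D j t‖ ^ 2 ≤
        W * ∑ j ∈ Finset.range J, w j * ((w j ^ 2)⁻¹ * ‖D j t‖ ^ 2) := by
      intro t
      have h1 : ‖∑ j ∈ Finset.range J, D j t‖ ≤ ∑ j ∈ Finset.range J, ‖D j t‖ := norm_sum_le _ _
      have h2 := weighted_pow (Finset.range J) w (fun j => ‖D j t‖) (fun j _ => hw0 j) (fun j _ => norm_nonneg _) 1
      calc ‖∑ j ∈ Finset.range J, D j t‖ ^ 2 ≤ (∑ j ∈ Finset.range J, ‖D j t‖) ^ 2 :=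
            pow_le_pow_left₀ (norm_nonneg _) h1 _
        _ ≤ W ^ 1 * ∑ j ∈ Finset.range J, w j * (‖D j t‖ / w j) ^ 2 := h2
        _ = _ := by
          rw [pow_one]
          congr 1
          refine Finset.sum_congr rfl fun j _ => ?_
          rw [div_pow]
          ring
    have hN2 : 0 ≤ N2 N b := Pool.Agent.Q98.UM.N2_nonneg _ _
    calc ∑ s ∈ S, v s * (‖∑ j ∈ Finset.range J, D j s.im‖ ^ 2 * ‖dp N b s.im‖ ^ 2)
        ≤ ∑ s ∈ S, v s * ((W * ∑ j ∈ Finset.range J, w j * ((w j ^ 2)⁻¹ * ‖D j s.im‖ ^ 2)) * ‖dp N b s.im‖ ^ 2) := by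
          refine Finset.sum_le_sum fun s hs => mul_le_mul_of_nonneg_left ?_ (hv s hs)
          exact mul_le_mul_of_nonneg_right (hpt s.im) (by positivity)
      _ = W * ∑ j ∈ Finset.range J, w j * ((w j ^ 2)⁻¹ * ∑ s ∈ S, v s * (‖D j s.im‖ ^ 2 * ‖dp N b s.im‖ ^ 2)) := by
          simp_rw [Finset.mul_sum, Finset.sum_mul, Finset.mul_sum]
          rw [Finset.sum_comm]
          refine Finset.sum_congr rfl fun j _ => Finset.sum_congr rfl fun s _ => ?_
          ring
      _ ≤ W * ∑ j ∈ Finset.range J, w j * (K₁ * (A * N2 N b)) := by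
          refine mul_le_mul_of_nonneg_left (Finset.sum_le_sum fun j hj => ?_) hW0
          refine mul_le_mul_of_nonneg_left ?_ (hw0 j).le
          rw [inv_mul_le_iff₀ (by have := hw0 j; positivity)]
          refine (hone j hj).trans (le_of_eq ?_)
          have : w j ^ 2 = (2:ℝ) ^ j := by
            rw [hw]
            simp only
            rw [← pow_mul, mul_comm j 2, pow_mul, Real.sq_sqrt (by norm_num)]
          rw [this]
          ring
      _ = K₁ * (A * N2 N b) * W ^ 2 := by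
          rw [← Finset.sum_mul, ← hW]
          ring
      _ ≤ K₁ * (A * N2 N b) * (9 * (2 * Q)) := by
          refine mul_le_mul_of_nonneg_left ?_ (by positivity)
          have h1 : W ≤ 3 * (Real.sqrt 2) ^ J := geom_bound J
          calc W ^ 2 ≤ (3 * (Real.sqrt 2) ^ J) ^ 2 := pow_le_pow_left₀ hW0 h1 2
            _ = 9 * 2 ^ J := by
              rw [mul_pow, ← pow_mul, mul_comm J 2, pow_mul, Real.sq_sqrt (by norm_num)]
              norm_num
            _ ≤ _ := by linarith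
      _ = _ := by
          rw [hQ]
          ring

end Pool.Agent.U196.UM
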